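import Pool.Agent.Lib.TPL.Tri

/-!
# T-junction plans: link conditions
-/

namespace Pool.TPL

open Pool.GS Pool.GSE Word Function

namespace Plan

variable {A B T V H : Type} [Group A] [Group B] {P : Plan A B T V H}

/-- two corners at the same junction, vertical wall through -/
theorem opp {κ κ' : P.Cor} (hr : κ.r = κ'.r) (hne : κ ≠ κ') (k : P.st κ.v κ.ε κ.h) :
    κ'.v = κ.v ∧ κ'.ε = κ.ε ∧ κ'.h = κ.h ∧ κ'.δ = !κ.δ := by
  have k' : P.st κ'.v κ'.ε κ'.h := by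
    by_contra hk
    rw [Cor.r_true k, Cor.r_false hk] at hr
    simp at hr
  rw [Cor.r_true k, Cor.r_true k'] at hr
  simp only [Prod.mk.injEq] at hr
  obtain ⟨h1, h2, h3, -⟩ := hr
  refine ⟨h1.symm, h3.symm, h2.symm, ?_⟩
  by_contra h4
  refine hne (Cor.ext' h1 h3 h2 ?_)
  rcases h5 : κ.δ with _ | _ <;> rcases h6 : κ'.δ with _ | _ <;> simp_all

theorem opp' {κ κ' : P.Cor} (hr : κ.r = κ'.r) (hne : κ ≠ κ') (k : ¬ P.st κ.v κ.ε κ.h) :
    κ'.v = κ.v ∧ κ'.δ = κ.δ ∧ κ'.h = κ.h ∧ κ'.ε = !κ.ε := by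
  have k' : ¬ P.st κ'.v κ'.ε κ'.h := by
    intro hk
    rw [Cor.r_false k, Cor.r_true hk] at hr
    simp at hr
  rw [Cor.r_false k, Cor.r_false k'] at hr
  simp only [Prod.mk.injEq] at hr
  obtain ⟨h1, h2, h3, -⟩ := hr
  refine ⟨h1.symm, h3.symm, h2.symm, ?_⟩
  by_contra h4
  refine hne (Cor.ext' h1 ?_ h2 h3)
  rcases h5 : κ.ε with _ | _ <;> rcases h6 : κ'.ε with _ | _ <;> simp_all

theorem kind_r {κ : P.Cor} : κ.r.2.2.2 = true ↔ P.st κ.v κ.ε κ.h := by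
  by_cases k : P.st κ.v κ.ε κ.h
  · rw [Cor.r_true k]; simp [k]
  · rw [Cor.r_false k]; simp [k]

/-- the elements of the first edge groups, second coordinate -/
theorem homP_snd {v : V} {ε : Bool} {t : T} {i : P.X.inc v ε t} {z : P.Amb × P.Amb}
    (hz : z ∈ (homP (P := P) ⟨v, ε, t, i⟩).range) : ∃ (c : P.X.C v) (w : B)
      (hw : w ∈ P.Y.W t) (hw' : w ∈ P.D v), z.2 = P.inV v (P.gl v ε (c, ⟨w, hw'⟩)) := by
  obtain ⟨⟨c, w⟩, rfl⟩ := hz
  exact ⟨c, w, w.2, (P.tree v ε).vert t i w.2, rfl⟩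

/-- the elements of the second edge groups, second coordinate -/
theorem homQ_snd {h : H} {δ : Bool} {t : T} {j : P.Y.inc h δ t} {z : P.Amb × P.Amb}
    (hz : z ∈ (homQ (P := P) ⟨h, δ, t, j⟩).range) : ∃ (w : A) (c : P.Y.C h)
      (hw : w ∈ P.X.W t) (hw' : w ∈ P.E h), z.2 = P.inH h (P.gl' h δ (⟨w, hw'⟩, c)) := by
  obtain ⟨⟨w, c⟩, rfl⟩ := hz
  exact ⟨w, c, w.2, (P.tree' h δ).vert t j w.2, rfl⟩

theorem eb_step {v : V} {ε : Bool} {h : H} {δ δ' : Bool} {t t' : T} (i : P.X.inc v ε t)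
    (j : P.Y.inc h δ t) (i' : P.X.inc v ε t') (j' : P.Y.inc h δ' t') (k : P.st v ε h)
    (hδ : δ' = !δ) {l' : B} (hl : lt (P.Y.s h) δ' = l') {hm : l' ∈ P.D v} :
    (eb (⟨v, ε, h, δ, t, i, j⟩ : P.Cor))⁻¹ * eb (⟨v, ε, h, δ', t', i', j'⟩ : P.Cor) =
      P.inV v (P.gl v ε (1, ⟨l', hm⟩)) := by
  subst hl
  rw [eb_true (κ := ⟨v, ε, h, δ, t, i, j⟩) k, eb_true (κ := ⟨v, ε, h, δ', t', i', j'⟩) k]
  change (P.inV v (P.gl v ε (1, pw ⟨P.Y.s h, sH_mem k⟩ δ)))⁻¹ *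
    P.inV v (P.gl v ε (1, pw ⟨P.Y.s h, sH_mem k⟩ δ')) = _
  rw [← map_inv, ← map_inv, ← map_mul, ← map_mul]
  congr 2
  refine Prod.ext (by simp) (Subtype.ext ?_)
  simp only [Prod.mk_mul_mk, Prod.inv_mk, Subgroup.coe_mul, Subgroup.coe_inv, pw_coe]
  exact pw_inv_pw _ hδ

theorem ex_step {v : V} {ε ε' : Bool} {h : H} {δ : Bool} {t t' : T} (i : P.X.inc v ε t)
    (j : P.Y.inc h δ t) (i' : P.X.inc v ε' t') (j' : P.Y.inc h δ t') (k : P.st' h δ v)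
    (hε : ε' = !ε) {l' : A} (hl : lt (P.X.s v) ε' = l') {hm : l' ∈ P.E h} :
    ex (⟨v, ε, h, δ, t, i, j⟩ : P.Cor) * (ex (⟨v, ε', h, δ, t', i', j'⟩ : P.Cor))⁻¹ =
      P.inH h (P.gl' h δ (⟨l', hm⟩, 1)) := by
  subst hl
  rw [ex_false (κ := ⟨v, ε, h, δ, t, i, j⟩) (Cor.not_st i j k),
    ex_false (κ := ⟨v, ε', h, δ, t', i', j'⟩) (Cor.not_st i' j' k), inv_inv]
  change (P.inH h (P.gl' h δ (pw ⟨P.X.s v, sV_mem k⟩ ε, 1)))⁻¹ *
    P.inH h (P.gl' h δ (pw ⟨P.X.s v, sV_mem k⟩ ε', 1)) = _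
  rw [← map_inv, ← map_inv, ← map_mul, ← map_mul]
  congr 2
  refine Prod.ext (Subtype.ext ?_) (by simp)
  simp only [Prod.mk_mul_mk, Prod.inv_mk, Subgroup.coe_mul, Subgroup.coe_inv, pw_coe]
  exact pw_inv_pw _ hε

theorem lt_mem {G : Type*} [Group G] {S : Subgroup G} {s : G} (hs : s ∈ S) (δ : Bool) :
    lt s δ ∈ S := by
  cases δ
  · exact inv_mem hs
  · exact hs

theorem Path_mem {A T V : Type} [Group A] {X : Net A T V} {S : Set T} {L : Set V}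
    {E : Subgroup A} (h : X.Tree S L E) {v : V} {δ : Bool} {t : T} {x : A}
    (hp : X.Path S L v δ t x) : x ∈ E := by
  induction hp with
  | one h1 h2 _ h3 => exact mul_mem (lt_mem (h.edge _ h1) _) (h.vert _ h2 h3)
  | cons h1 h2 _ h3 _ _ _ ih =>
    exact mul_mem (mul_mem (lt_mem (h.edge _ h1) _) (h.vert _ h2 h3)) ih

theorem forest_v {κ : P.Cor} {g : P.Amb} {p1 : P.PI} (h : P.tri.ZP κ g p1) :
    P.st κ.v κ.ε κ.h ∧ p1.v = κ.v ∧ p1.ε = κ.ε ∧ ∃ (c : P.X.C κ.v) (β : B) (hβ : β ∈ P.D κ.v),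
      g = P.inV κ.v (P.gl κ.v κ.ε (c, ⟨β, hβ⟩)) ∧
        P.Y.Path {t | P.X.inc κ.v κ.ε t} {h | P.st κ.v κ.ε h} κ.h (!κ.δ) p1.t β := by
  induction h with
  | @single κ κ' l l' h1 h2 h3 h4 =>
    have k : P.st κ.v κ.ε κ.h := kind_r.1 h3
    obtain ⟨g1, g2, g3, g4⟩ := opp h1 h2 k
    obtain ⟨v, ε, h, δ, t, i, j⟩ := κ
    obtain ⟨v', ε', h', δ', t', i', j'⟩ := κ'
    simp only at g1 g2 g3 g4 k
    subst g1 g2 g3
    obtain ⟨c, w, hw, hw', hz⟩ := homP_snd h4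
    simp only at hz
    subst hz
    refine ⟨k, rfl, rfl, c, lt (P.Y.s h') δ' * w, mul_mem (lt_mem (sH_mem k) _) hw', ?_, ?_⟩
    · change (eb _)⁻¹ * eb _ * _ = _
      rw [eb_step i j i' j' k g4 rfl (hm := lt_mem (sH_mem k) _), ← map_mul, ← map_mul]
      congr 2
      exact Prod.ext (one_mul c) rfl
    · rw [← g4]
      exact Net.Path.one k i' j' hw
  | @cons κ κ' κ2 l l' g p1 h1 h2 h3 h4 h5 h6 _ ih =>
    have k : P.st κ.v κ.ε κ.h := kind_r.1 h3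
    obtain ⟨g1, g2, g3, g4⟩ := opp h1 h2 k
    have e1 : κ2.v = κ'.v := (congrArg PI.v h4).symm
    have e2 : κ2.ε = κ'.ε := (congrArg PI.ε h4).symm
    have e3 : κ2.t = κ'.t := (congrArg PI.t h4).symm
    obtain ⟨v, ε, h, δ, t, i, j⟩ := κ
    obtain ⟨v', ε', h', δ', t', i', j'⟩ := κ'
    simp only at g1 g2 g3 g4 k
    subst g1 g2 g3
    obtain ⟨v2, ε2, h2', δ2, t2, i2, j2⟩ := κ2
    simp only at e1 e2 e3
    subst e1 e2 e3
    obtain ⟨k2, f1, f2, c2, β, hβ, f3, f4⟩ := ih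
    simp only at k2 f1 f2 f4
    obtain ⟨c, w, hw, hw', hz⟩ := homP_snd h5
    simp only at hz
    subst hz
    refine ⟨k, f1, f2, c * c2, lt (P.Y.s h') δ' * w * β,
      mul_mem (mul_mem (lt_mem (sH_mem k) _) hw') hβ, ?_, ?_⟩
    · change (eb _)⁻¹ * eb _ * _ * g = _
      rw [eb_step i j i' j' k g4 rfl (hm := lt_mem (sH_mem k) _), f3]
      change _ * P.inV v2 (P.gl v2 ε2 (c2, ⟨β, hβ⟩)) = _
      rw [← map_mul, ← map_mul, ← map_mul, ← map_mul]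
      congr 2
      refine Prod.ext ?_ rfl
      simp
    · change P.Y.Path _ _ h' (!δ) p1.t _
      rw [← g4]
      refine Net.Path.cons k i' j' hw ?_ ?_ f4
      · rw [Bool.not_not]; exact j2
      · rintro ⟨f5, f6, b, hb, f7⟩
        subst f5
        have f8 : δ2 = δ' := by
          rcases δ2 with _ | _ <;> rcases δ' with _ | _ <;> simp_all
        subst f8
        refine h6 ⟨rfl, ?_⟩
        have hbD : b ∈ P.D v2 := Cor.C_mem (κ := ⟨v2, ε2, h2', δ2, t2, i2, j2⟩) k2 ⟨b, hb⟩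
        refine ⟨(homR1 (P := P) v2 ε2 (c, ⟨b, hbD⟩)).1, ?_⟩
        change (_, eb (⟨v2, ε2, h2', δ2, t2, i', j'⟩ : P.Cor) * _ *
          (eb (⟨v2, ε2, h2', δ2, t2, i2, j2⟩ : P.Cor))⁻¹) ∈
          LR (P := P) (Cor.r (⟨v2, ε2, h2', δ2, t2, i', j'⟩ : P.Cor))
        rw [Cor.r_true (κ := ⟨v2, ε2, h2', δ2, t2, i', j'⟩) k2, mem_LR_true]
        refine ⟨c, ⟨b, hbD⟩, hb, ?_⟩
        rw [eb_true (κ := ⟨v2, ε2, h2', δ2, t2, i', j'⟩) k2]
        refine Prod.ext rfl ?_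
        change P.inV v2 (P.gl v2 ε2 (c, ⟨b, hbD⟩)) =
          P.inV v2 (P.gl v2 ε2 (1, pw ⟨P.Y.s h2', sH_mem k2⟩ δ2)) *
            P.inV v2 (P.gl v2 ε2 (c, ⟨w, hw'⟩)) *
            (P.inV v2 (P.gl v2 ε2 (1, pw ⟨P.Y.s h2', sH_mem k2⟩ δ2)))⁻¹
        rw [← map_inv, ← map_inv, ← map_mul, ← map_mul, ← map_mul, ← map_mul]
        congr 2
        refine Prod.ext (by simp) (Subtype.ext ?_)
        simp only [Prod.mk_mul_mk, Prod.inv_mk, Subgroup.coe_mul, Subgroup.coe_inv, pw_coe]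
        rw [f7, eq_mul_inv_iff_mul_eq]
        exact (pw_sd _ _ _).symm

theorem forest_h {κ : P.Cor} {g : P.Amb} {p1 : P.QI} (h : P.tri.swap.ZP κ g p1) :
    ¬ P.st κ.v κ.ε κ.h ∧ p1.h = κ.h ∧ p1.δ = κ.δ ∧
      ∃ (β : A) (hβ : β ∈ P.E κ.h) (c : P.Y.C κ.h),
      g = P.inH κ.h (P.gl' κ.h κ.δ (⟨β, hβ⟩, c)) ∧
        P.X.Path {t | P.Y.inc κ.h κ.δ t} {v | P.st' κ.h κ.δ v} κ.v (!κ.ε) p1.t β := by
  induction h with
  | @single κ κ' l l' h1 h2 h3 h4 =>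
    have k0 : ¬ P.st κ.v κ.ε κ.h := by
      intro hk
      have h5 := kind_r.2 hk
      change (!κ.r.2.2.2) = true at h3
      rw [h5] at h3
      simp at h3
    obtain ⟨g1, g2, g3, g4⟩ := opp' h1 h2 k0
    obtain ⟨v, ε, h, δ, t, i, j⟩ := κ
    obtain ⟨v', ε', h', δ', t', i', j'⟩ := κ'
    simp only at g1 g2 g3 g4 k0
    subst g1 g2 g3
    have k : P.st' h' δ' v' := Cor.st' (κ := ⟨v', ε, h', δ', t, i, j⟩) k0
    obtain ⟨w, c, hw, hw', hz⟩ := homQ_snd h4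
    simp only at hz
    subst hz
    refine ⟨k0, rfl, rfl, lt (P.X.s v') ε' * w, mul_mem (lt_mem (sV_mem k) _) hw', c, ?_, ?_⟩
    · change ((ex _)⁻¹)⁻¹ * (ex _)⁻¹ * _ = _
      rw [inv_inv, ex_step i j i' j' k g4 rfl (hm := lt_mem (sV_mem k) _), ← map_mul, ← map_mul]
      congr 2
      exact Prod.ext rfl (one_mul c)
    · rw [← g4]
      exact Net.Path.one k j' i' hw
  | @cons κ κ' κ2 l l' g p1 h1 h2 h3 h4 h5 h6 _ ih =>
    have k0 : ¬ P.st κ.v κ.ε κ.h := by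
      intro hk
      have h5 := kind_r.2 hk
      change (!κ.r.2.2.2) = true at h3
      rw [h5] at h3
      simp at h3
    obtain ⟨g1, g2, g3, g4⟩ := opp' h1 h2 k0
    have e1 : κ2.h = κ'.h := (congrArg QI.h h4).symm
    have e2 : κ2.δ = κ'.δ := (congrArg QI.δ h4).symm
    have e3 : κ2.t = κ'.t := (congrArg QI.t h4).symm
    obtain ⟨v, ε, h, δ, t, i, j⟩ := κ
    obtain ⟨v', ε', h', δ', t', i', j'⟩ := κ'
    simp only at g1 g2 g3 g4 k0
    subst g1 g2 g3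
    have k : P.st' h' δ' v' := Cor.st' (κ := ⟨v', ε, h', δ', t, i, j⟩) k0
    obtain ⟨v2, ε2, h2', δ2, t2, i2, j2⟩ := κ2
    simp only at e1 e2 e3
    subst e1 e2 e3
    obtain ⟨k2, f1, f2, β, hβ, c2, f3, f4⟩ := ih
    simp only at k2 f1 f2 f4
    have k3 : P.st' h2' δ2 v2 := Cor.st' (κ := ⟨v2, ε2, h2', δ2, t2, i2, j2⟩) k2
    obtain ⟨w, c, hw, hw', hz⟩ := homQ_snd h5
    simp only at hz
    subst hz
    refine ⟨k0, f1, f2, lt (P.X.s v') ε' * w * β,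
      mul_mem (mul_mem (lt_mem (sV_mem k) _) hw') hβ, c * c2, ?_, ?_⟩
    · change ((ex _)⁻¹)⁻¹ * (ex _)⁻¹ * _ * g = _
      rw [inv_inv, ex_step i j i' j' k g4 rfl (hm := lt_mem (sV_mem k) _), f3]
      change _ * P.inH h2' (P.gl' h2' δ2 (⟨β, hβ⟩, c2)) = _
      rw [← map_mul, ← map_mul, ← map_mul, ← map_mul]
      congr 2
      refine Prod.ext rfl ?_
      simp
    · change P.X.Path _ _ v' (!ε) p1.t _
      rw [← g4]
      refine Net.Path.cons k j' i' hw ?_ ?_ f4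
      · rw [Bool.not_not]; exact i2
      · rintro ⟨f5, f6, b, hb, f7⟩
        subst f5
        have f8 : ε2 = ε' := by
          rcases ε2 with _ | _ <;> rcases ε' with _ | _ <;> simp_all
        subst f8
        refine h6 ⟨rfl, ?_⟩
        have hbD : b ∈ P.E h2' := Cor.C_mem' (κ := ⟨v2, ε2, h2', δ2, t2, i2, j2⟩) k2 ⟨b, hb⟩
        refine ⟨(homR2 (P := P) h2' δ2 (⟨b, hbD⟩, c)).2, ?_⟩
        change ((ex (⟨v2, ε2, h2', δ2, t2, i', j'⟩ : P.Cor))⁻¹ * _ *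
          ((ex (⟨v2, ε2, h2', δ2, t2, i2, j2⟩ : P.Cor))⁻¹)⁻¹, _) ∈
          LR (P := P) (Cor.r (⟨v2, ε2, h2', δ2, t2, i', j'⟩ : P.Cor))
        rw [Cor.r_false (κ := ⟨v2, ε2, h2', δ2, t2, i', j'⟩) k2, mem_LR_false]
        refine ⟨⟨b, hbD⟩, c, hb, ?_⟩
        rw [ex_false (κ := ⟨v2, ε2, h2', δ2, t2, i', j'⟩) k2, inv_inv]
        refine Prod.ext ?_ rfl
        change P.inH h2' (P.gl' h2' δ2 (⟨b, hbD⟩, c)) =
          P.inH h2' (P.gl' h2' δ2 (pw ⟨P.X.s v2, sV_mem k3⟩ ε2, 1)) *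
            P.inH h2' (P.gl' h2' δ2 (⟨w, hw'⟩, c)) *
            (P.inH h2' (P.gl' h2' δ2 (pw ⟨P.X.s v2, sV_mem k3⟩ ε2, 1)))⁻¹
        rw [← map_inv, ← map_inv, ← map_mul, ← map_mul, ← map_mul, ← map_mul]
        congr 2
        refine Prod.ext (Subtype.ext ?_) (by simp)
        simp only [Prod.mk_mul_mk, Prod.inv_mk, Subgroup.coe_mul, Subgroup.coe_inv, pw_coe]
        rw [f7, eq_mul_inv_iff_mul_eq]
        exact (pw_sd _ _ _).symm

theorem vcond : P.tri.VCond (fun p => p.ε) where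
  fill {κ n n'} h := by
    obtain ⟨c, b, hz⟩ := exists_rr h
    refine ⟨_, _, ⟨(c, P.Y.side κ.j b), rfl⟩, ?_⟩
    have h1 := F2 κ c b
    rw [hz] at h1
    exact h1
  side {κ κ'} h h' := by
    have k : P.st κ.v κ.ε κ.h := kind_r.1 h'
    by_cases hne : κ = κ'
    · rw [hne]
    · exact (opp h hne k).2.1.symm
  det {κ κ'} h h' h'' := by
    by_contra hne
    have k : ¬ P.st κ.v κ.ε κ.h := by
      intro hk
      have h5 := kind_r.2 hk
      change κ.r.2.2.2 = false at h'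
      rw [h5] at h'
      simp at h'
    have h1 := (opp' h hne k).2.2.2
    change κ.ε = κ'.ε at h''
    rw [h''] at h1
    cases h2 : κ'.ε <;> simp [h2] at h1
  forest {κ g} h := by
    obtain ⟨k, -, -, c, β, hβ, h1, h2⟩ := forest_v h
    rintro rfl
    have h3 := (map_eq_one_iff _ (P.inV_injective _)).1 h1.symm
    rw [map_eq_one_iff _ (P.gl κ.v κ.ε).injective, Prod.mk_eq_one] at h3
    refine (P.tree κ.v κ.ε).red h2 ?_ (congrArg Subtype.val h3.2)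
    rw [Bool.not_not]
    exact κ.j

theorem hcond : P.tri.swap.VCond (fun q => q.δ) where
  fill {κ n n'} h := by
    have h' : (n', n) ∈ LR (P := P) κ.r := h
    obtain ⟨c, b, hz⟩ := exists_rr h'
    refine ⟨_, _, ⟨(P.X.side κ.i c, b), rfl⟩, ?_⟩
    have h1 := F1 κ c b
    rw [hz] at h1
    change n' * (ex κ)⁻¹ = (ex κ)⁻¹ * _
    rw [eq_inv_mul_iff_mul_eq, ← mul_assoc, mul_inv_eq_iff_eq_mul]
    exact h1.symm
  side {κ κ'} h h' := by
    have k : ¬ P.st κ.v κ.ε κ.h := by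
      intro hk
      have h5 := kind_r.2 hk
      change (!κ.r.2.2.2) = true at h'
      rw [h5] at h'
      simp at h'
    by_cases hne : κ = κ'
    · rw [hne]
    · exact (opp' h hne k).2.1.symm
  det {κ κ'} h h' h'' := by
    by_contra hne
    have k : P.st κ.v κ.ε κ.h := by
      have h5 : (!κ.r.2.2.2) = false := h'
      exact kind_r.1 (by simpa using h5)
    have h1 := (opp h hne k).2.2.2
    change κ.δ = κ'.δ at h''
    rw [h''] at h1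
    cases h2 : κ'.δ <;> simp [h2] at h1
  forest {κ g} h := by
    obtain ⟨k, -, -, β, hβ, c, h1, h2⟩ := forest_h h
    rintro rfl
    have h3 := (map_eq_one_iff _ (P.inH_injective _)).1 h1.symm
    rw [map_eq_one_iff _ (P.gl' κ.h κ.δ).injective, Prod.mk_eq_one] at h3
    refine (P.tree' κ.h κ.δ).red h2 ?_ (congrArg Subtype.val h3.1)
    rw [Bool.not_not]
    exact κ.i

variable (P)

theorem girth : P.tri.sys.Girth := TriData.girth P.vcond P.hcond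

end Plan

end Pool.TPL
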