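import Mathlib

/-!
# T-junction plans: definitions

A complex of groups with bricks, vertical walls and horizontal walls.  All groups of walls are
products of a subgroup of `A` and a subgroup of `B`; walls end on other walls (T-junctions) and every
side of a wall is a graph of groups.
-/

namespace Pool.TPL

/-- `c` if `ε` is false, `s⁻¹ * c * s` if `ε` is true -/
def sd {A : Type*} [Group A] (s : A) (ε : Bool) (c : A) : A := if ε then s⁻¹ * c * s else c

/-- `s` if `ε` is true, `s⁻¹` if `ε` is false -/
def lt {A : Type*} [Group A] (s : A) (ε : Bool) : A := if ε then s else s⁻¹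

/-- A family of subgroups `W t` (vertex groups) and `C v` (edge groups) of a group `A`, for every
edge `v` an element `s v` of `A`, and an incidence relation: `inc v ε t` says that the end `ε` of
the edge `v` lies at the vertex `t`; then the edge group (`ε` false), respectively its conjugate
`(s v)⁻¹ * C v * s v` (`ε` true), is contained in the vertex group. -/
structure Net (A T V : Type) [Group A] where
  W : T → Subgroup A
  C : V → Subgroup A
  s : V → A
  inc : V → Bool → T → Prop
  mem : ∀ {v ε t}, inc v ε t → ∀ c : C v, sd (s v) ε (c : A) ∈ W t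

namespace Net

variable {A T V : Type} [Group A] (X : Net A T V)

/-- `Path S L v δ t x` : the element `x` is the value of a reduced path in the graph with vertices
`S` and edges `L`, which first runs along `v` (from the end `false` to the end `true` if `δ` is
true, in the opposite direction otherwise) and ends in the vertex `t` -/
inductive Path (S : Set T) (L : Set V) : V → Bool → T → A → Prop
  | one {v : V} {δ : Bool} {t : T} {w : A} : v ∈ L → t ∈ S → X.inc v δ t → w ∈ X.W t →
      Path S L v δ t (lt (X.s v) δ * w)
  | cons {v : V} {δ : Bool} {t : T} {w : A} {v' : V} {δ' : Bool} {t' : T} {x : A} :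
      v ∈ L → t ∈ S → X.inc v δ t → w ∈ X.W t → X.inc v' (!δ') t →
      ¬ (v' = v ∧ δ' = !δ ∧ ∃ c ∈ X.C v, w = sd (X.s v) δ c) → Path S L v' δ' t' x →
      Path S L v δ t' (lt (X.s v) δ * w * x)

/-- the graph of groups with vertices `S` and edges `L` lies in the subgroup `E`, and its
fundamental group embeds: closed reduced paths have nontrivial values -/
structure Tree (S : Set T) (L : Set V) (E : Subgroup A) : Prop where
  vert : ∀ t ∈ S, X.W t ≤ E
  edge : ∀ v ∈ L, X.s v ∈ E
  red : ∀ {v δ t x}, X.Path S L v δ t x → X.inc v (!δ) t → x ≠ 1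

/-- the edge group in the vertex group -/
def side {v : V} {ε : Bool} {t : T} (h : X.inc v ε t) : X.C v →* X.W t where
  toFun c := ⟨sd (X.s v) ε c, X.mem h c⟩
  map_one' := by cases ε <;> simp [sd]
  map_mul' c c' := by
    apply Subtype.ext
    cases ε <;> simp [sd, mul_assoc]

@[simp] theorem coe_side {v : V} {ε : Bool} {t : T} (h : X.inc v ε t) (c : X.C v) :
    (X.side h c : A) = sd (X.s v) ε c := rfl

end Net

/-- A T-junction plan.  `X` : the bricks `T` and the vertical walls `V` in the group `A`; `Y` : the
bricks and the horizontal walls `H` in the group `B`; `X.inc v ε t` : the brick `t` lies at the side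
`ε` of the vertical wall `v`; `st v ε h` : the horizontal wall `h` ends at the side `ε` of the
vertical wall `v`; `st' h δ v` : the vertical wall `v` ends at the side `δ` of the horizontal wall
`h`.  The group of the vertical wall `v` is `X.C v × D v`, its two sides are glued by the
automorphism `g v`; the group of the horizontal wall `h` is `E h × Y.C h`, glued by `g' h`.  The
group of the brick `t` is `G t`, with maps `u t`, `u' t` of `X.W t` and of `Y.W t`. -/
structure Plan (A B T V H : Type) [Group A] [Group B] where
  X : Net A T V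
  Y : Net B T H
  D : V → Subgroup B
  E : H → Subgroup A
  st : V → Bool → H → Prop
  st' : H → Bool → V → Prop
  /-- at most one brick lies at given sides of two walls -/
  uniq : ∀ {v ε h δ t t'}, X.inc v ε t → Y.inc h δ t → X.inc v ε t' → Y.inc h δ t' → t = t'
  /-- in the corner of a brick exactly one of the two walls ends -/
  corner : ∀ {v ε h δ t}, X.inc v ε t → Y.inc h δ t → (st v ε h ↔ ¬ st' h δ v)
  /-- the sides of the vertical walls -/
  tree : ∀ v ε, Y.Tree {t | X.inc v ε t} {h | st v ε h} (D v)
  /-- the sides of the horizontal walls -/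
  tree' : ∀ h δ, X.Tree {t | Y.inc h δ t} {v | st' h δ v} (E h)
  G : T → Type
  [grp : ∀ t, Group (G t)]
  u : ∀ t, X.W t →* G t
  u' : ∀ t, Y.W t →* G t
  indep : ∀ t a b, u t a * u' t b = 1 → a = 1 ∧ b = 1
  comm : ∀ {v ε t} (h : X.inc v ε t) (c : X.C v) (b : Y.W t),
    Commute (u t (X.side h c)) (u' t b)
  comm' : ∀ {h δ t} (k : Y.inc h δ t) (a : X.W t) (c : Y.C h),
    Commute (u t a) (u' t (Y.side k c))
  g : ∀ v, MulAut (X.C v × D v)
  g' : ∀ h, MulAut (E h × Y.C h)
  /-- the gluing of `v` fixes the ends of `v` -/
  fix : ∀ {h δ v}, st' h δ v → ∀ (c : X.C v) (b : Y.C h) (hb : sd (Y.s h) δ (b : B) ∈ D v),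
    g v (c, ⟨_, hb⟩) = (c, ⟨_, hb⟩)
  /-- the gluing of `h` fixes the ends of `h` -/
  fix' : ∀ {v ε h}, st v ε h → ∀ (c : X.C v) (b : Y.C h) (hc : sd (X.s v) ε (c : A) ∈ E h),
    g' h (⟨_, hc⟩, b) = (⟨_, hc⟩, b)

attribute [instance] Plan.grp

namespace Plan

variable {A B T V H : Type} [Group A] [Group B] (P : Plan A B T V H)

/-- the gluing map at the side `ε` of a vertical wall -/
def gl (v : V) (ε : Bool) : MulAut (P.X.C v × P.D v) := if ε then 1 else P.g v

/-- the gluing map at the side `δ` of a horizontal wall -/
def gl' (h : H) (δ : Bool) : MulAut (P.E h × P.Y.C h) := if δ then 1 else P.g' h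

/-- the group of a side of a vertical wall at a brick, mapped to the brick -/
def toBrick {v : V} {ε : Bool} {t : T} (h : P.X.inc v ε t) : P.X.C v × P.Y.W t →* P.G t :=
  MonoidHom.noncommCoprod ((P.u t).comp (P.X.side h)) (P.u' t) (P.comm h)

/-- the group of a side of a vertical wall at a brick, mapped to the wall -/
def toWall {v : V} {ε : Bool} {t : T} (h : P.X.inc v ε t) :
    P.X.C v × P.Y.W t →* P.X.C v × P.D v :=
  (P.gl v ε).toMonoidHom.comp
    ((MonoidHom.id _).prodMap (Subgroup.inclusion ((P.tree v ε).vert t h)))

/-- the group of a side of a horizontal wall at a brick, mapped to the brick -/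
def toBrick' {h : H} {δ : Bool} {t : T} (k : P.Y.inc h δ t) : P.X.W t × P.Y.C h →* P.G t :=
  MonoidHom.noncommCoprod (P.u t) ((P.u' t).comp (P.Y.side k)) (P.comm' k)

/-- the group of a side of a horizontal wall at a brick, mapped to the wall -/
def toWall' {h : H} {δ : Bool} {t : T} (k : P.Y.inc h δ t) :
    P.X.W t × P.Y.C h →* P.E h × P.Y.C h :=
  (P.gl' h δ).toMonoidHom.comp
    ((Subgroup.inclusion ((P.tree' h δ).vert t k)).prodMap (MonoidHom.id _))

/-- the generators of the group of a plan: the elements of the bricks and of the walls, and one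
letter for every side of a wall and every brick at this side -/
inductive Gen
  | brick (t : T) (x : P.G t)
  | wall (v : V) (z : P.X.C v × P.D v)
  | wall' (h : H) (z : P.E h × P.Y.C h)
  | letter (v : V) (ε : Bool) (t : T) (i : P.X.inc v ε t)
  | letter' (h : H) (δ : Bool) (t : T) (i : P.Y.inc h δ t)

open FreeGroup in
/-- the relations of the group of a plan: the multiplication tables, one relation for every element
of a side of a wall at a brick, and one relation for every junction -/
inductive Rel : FreeGroup P.Gen → FreeGroup P.Gen → Prop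
  | brick (t : T) (x y : P.G t) :
      Rel (of (.brick t x) * of (.brick t y)) (of (.brick t (x * y)))
  | wall (v : V) (z z' : P.X.C v × P.D v) :
      Rel (of (.wall v z) * of (.wall v z')) (of (.wall v (z * z')))
  | wall' (h : H) (z z' : P.E h × P.Y.C h) :
      Rel (of (.wall' h z) * of (.wall' h z')) (of (.wall' h (z * z')))
  | side {v : V} {ε : Bool} {t : T} (i : P.X.inc v ε t) (z : P.X.C v × P.Y.W t) :
      Rel (of (.brick t (P.toBrick i z)) * of (.letter v ε t i))
        (of (.letter v ε t i) * of (.wall v (P.toWall i z)))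
  | side' {h : H} {δ : Bool} {t : T} (i : P.Y.inc h δ t) (z : P.X.W t × P.Y.C h) :
      Rel (of (.brick t (P.toBrick' i z)) * of (.letter' h δ t i))
        (of (.letter' h δ t i) * of (.wall' h (P.toWall' i z)))
  | junction {v : V} {ε : Bool} {h : H} (k : P.st v ε h) {t t' : T} (i : P.X.inc v ε t)
      (j : P.Y.inc h false t) (i' : P.X.inc v ε t') (j' : P.Y.inc h true t') :
      Rel ((of (.letter' h false t j))⁻¹ * of (.letter v ε t i) *
          of (.wall v (P.gl v ε (1, ⟨P.Y.s h, (P.tree v ε).edge h k⟩))))
        ((of (.letter' h true t' j'))⁻¹ * of (.letter v ε t' i'))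
  | junction' {h : H} {δ : Bool} {v : V} (k : P.st' h δ v) {t t' : T} (i : P.Y.inc h δ t)
      (j : P.X.inc v false t) (i' : P.Y.inc h δ t') (j' : P.X.inc v true t') :
      Rel ((of (.letter v false t j))⁻¹ * of (.letter' h δ t i) *
          of (.wall' h (P.gl' h δ (⟨P.X.s v, (P.tree' h δ).edge v k⟩, 1))))
        ((of (.letter v true t' j'))⁻¹ * of (.letter' h δ t' i'))

/-- the group of a plan -/
abbrev Grp : Type := PresentedGroup {r : FreeGroup P.Gen | ∃ a b, P.Rel a b ∧ r = a * b⁻¹}

end Plan

end Pool.TPL
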