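import Pool.Agent.Lib.TPL.Def
import Pool.Agent.Lib.GSE.Swap

/-!
# T-junction plans: the triangle system
-/

namespace Pool.TPL

open Pool.GS Pool.GSE Word Function

@[simp] theorem sd_false {A : Type*} [Group A] (s c : A) : sd s false c = c := rfl
@[simp] theorem sd_true {A : Type*} [Group A] (s c : A) : sd s true c = s⁻¹ * c * s := rfl
@[simp] theorem lt_false {A : Type*} [Group A] (s : A) : lt s false = s⁻¹ := rfl
@[simp] theorem lt_true {A : Type*} [Group A] (s : A) : lt s true = s := rfl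

theorem sd_one {A : Type*} [Group A] (s : A) (ε : Bool) : sd s ε 1 = 1 := by
  cases ε <;> simp [sd]

theorem sd_mul {A : Type*} [Group A] (s : A) (ε : Bool) (a b : A) :
    sd s ε (a * b) = sd s ε a * sd s ε b := by
  cases ε <;> simp [sd, mul_assoc]

theorem sd_eq_one {A : Type*} [Group A] {s : A} {ε : Bool} {c : A} (h : sd s ε c = 1) :
    c = 1 := by
  cases ε
  · exact h
  · have h1 : s⁻¹ * c * s = 1 := h
    have h2 : c = s * (s⁻¹ * c * s) * s⁻¹ := by group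
    rw [h2, h1]; group

/-- conjugation as a homomorphism -/
def sdHom {A : Type*} [Group A] (s : A) (ε : Bool) : A →* A where
  toFun := sd s ε
  map_one' := sd_one s ε
  map_mul' := sd_mul s ε

@[simp] theorem sdHom_apply {A : Type*} [Group A] (s : A) (ε : Bool) (c : A) :
    sdHom s ε c = sd s ε c := rfl

/-- `s` if `ε` is true, `1` otherwise -/
def pw {A : Type*} [Group A] (s : A) (ε : Bool) : A := if ε then s else 1

@[simp] theorem pw_false {A : Type*} [Group A] (s : A) : pw s false = 1 := rfl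
@[simp] theorem pw_true {A : Type*} [Group A] (s : A) : pw s true = s := rfl

theorem pw_sd {A : Type*} [Group A] (s : A) (ε : Bool) (c : A) :
    pw s ε * sd s ε c = c * pw s ε := by
  cases ε <;> simp [pw, sd, mul_assoc]

theorem pw_inv_pw {A : Type*} [Group A] (s : A) {δ δ' : Bool} (h : δ' = !δ) :
    (pw s δ)⁻¹ * pw s δ' = lt s δ' := by
  subst h
  cases δ <;> simp

theorem coe_side_injective {A T V : Type} [Group A] (X : Net A T V) {v : V} {ε : Bool} {t : T}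
    (h : X.inc v ε t) : Injective (X.side h) := by
  rw [injective_iff_map_eq_one]
  intro c hc
  have h1 : sd (X.s v) ε (c : A) = 1 := congrArg Subtype.val hc
  exact Subtype.ext (sd_eq_one h1)

namespace Plan

variable {A B T V H : Type} [Group A] [Group B] (P : Plan A B T V H)

/-- the ambient group -/
abbrev Amb : Type := (∀ t, P.G t) × (A × B)

open Classical in
/-- the bricks in the ambient group -/
noncomputable def inB (t : T) : P.G t →* P.Amb :=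
  (MonoidHom.inl _ _).comp (MonoidHom.mulSingle (fun t => P.G t) t)

theorem inB_injective (t : T) : Injective (P.inB t) := by
  classical
  intro x y h
  have h1 := congrArg Prod.fst h
  exact Pi.mulSingle_injective t h1

/-- the vertical walls in the ambient group -/
def inV (v : V) : P.X.C v × P.D v →* P.Amb :=
  (MonoidHom.inr _ _).comp ((P.X.C v).subtype.prodMap (P.D v).subtype)

theorem inV_apply (v : V) (z : P.X.C v × P.D v) : P.inV v z = (1, ((z.1 : A), (z.2 : B))) := rfl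

theorem inV_injective (v : V) : Injective (P.inV v) := by
  intro x y h
  rw [inV_apply, inV_apply, Prod.mk.injEq, Prod.mk.injEq] at h
  exact Prod.ext (Subtype.ext h.2.1) (Subtype.ext h.2.2)

/-- the horizontal walls in the ambient group -/
def inH (h : H) : P.E h × P.Y.C h →* P.Amb :=
  (MonoidHom.inr _ _).comp ((P.E h).subtype.prodMap (P.Y.C h).subtype)

theorem inH_apply (h : H) (z : P.E h × P.Y.C h) : P.inH h z = (1, ((z.1 : A), (z.2 : B))) := rfl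

theorem inH_injective (h : H) : Injective (P.inH h) := by
  intro x y k
  rw [inH_apply, inH_apply, Prod.mk.injEq, Prod.mk.injEq] at k
  exact Prod.ext (Subtype.ext k.2.1) (Subtype.ext k.2.2)

/-- sides of vertical walls at bricks -/
@[ext] structure PI where
  v : V
  ε : Bool
  t : T
  i : P.X.inc v ε t

/-- sides of horizontal walls at bricks -/
@[ext] structure QI where
  h : H
  δ : Bool
  t : T
  j : P.Y.inc h δ t

/-- corners of bricks -/
@[ext] structure Cor where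
  v : V
  ε : Bool
  h : H
  δ : Bool
  t : T
  i : P.X.inc v ε t
  j : P.Y.inc h δ t

variable {P}

/-- the first edge of a corner -/
def Cor.p (κ : P.Cor) : P.PI := ⟨κ.v, κ.ε, κ.t, κ.i⟩
/-- the second edge of a corner -/
def Cor.q (κ : P.Cor) : P.QI := ⟨κ.h, κ.δ, κ.t, κ.j⟩

open Classical in
/-- the junction of a corner -/
noncomputable def Cor.r (κ : P.Cor) : V × H × Bool × Bool :=
  if P.st κ.v κ.ε κ.h then (κ.v, κ.h, κ.ε, true) else (κ.v, κ.h, κ.δ, false)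

theorem Cor.r_true {κ : P.Cor} (k : P.st κ.v κ.ε κ.h) : κ.r = (κ.v, κ.h, κ.ε, true) := by
  simp [Cor.r, k]

theorem Cor.r_false {κ : P.Cor} (k : ¬ P.st κ.v κ.ε κ.h) : κ.r = (κ.v, κ.h, κ.δ, false) := by
  simp [Cor.r, k]

theorem Cor.st' {κ : P.Cor} (k : ¬ P.st κ.v κ.ε κ.h) : P.st' κ.h κ.δ κ.v := by
  by_contra h
  exact k ((P.corner κ.i κ.j).2 h)

theorem Cor.not_st {v : V} {ε : Bool} {h : H} {δ : Bool} {t : T} (i : P.X.inc v ε t)
    (j : P.Y.inc h δ t) (k : P.st' h δ v) : ¬ P.st v ε h := fun h1 => (P.corner i j).1 h1 k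

theorem Cor.ext' {κ κ' : P.Cor} (h1 : κ.v = κ'.v) (h2 : κ.ε = κ'.ε) (h3 : κ.h = κ'.h)
    (h4 : κ.δ = κ'.δ) : κ = κ' := by
  obtain ⟨v, ε, h, δ, t, i, j⟩ := κ
  obtain ⟨v', ε', h', δ', t', i', j'⟩ := κ'
  simp only at h1 h2 h3 h4
  subst h1 h2 h3 h4
  have := P.uniq i j i' j'
  subst this
  rfl

theorem sH_mem {v : V} {ε : Bool} {h : H} (k : P.st v ε h) : P.Y.s h ∈ P.D v :=
  (P.tree v ε).edge h k

theorem sV_mem {h : H} {δ : Bool} {v : V} (k : P.st' h δ v) : P.X.s v ∈ P.E h :=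
  (P.tree' h δ).edge v k

theorem Cor.C_mem {κ : P.Cor} (k : P.st κ.v κ.ε κ.h) (c : P.Y.C κ.h) : (c : B) ∈ P.D κ.v := by
  have h1 : sd (P.Y.s κ.h) κ.δ (c : B) ∈ P.D κ.v :=
    (P.tree κ.v κ.ε).vert κ.t κ.i (P.Y.mem κ.j c)
  rcases hδ : κ.δ with _ | _
  · rw [hδ] at h1; exact h1
  · rw [hδ, sd_true] at h1
    have h2 := mul_mem (mul_mem (sH_mem k) h1) (inv_mem (sH_mem k))
    have h3 : P.Y.s κ.h * ((P.Y.s κ.h)⁻¹ * c * P.Y.s κ.h) * (P.Y.s κ.h)⁻¹ = c := by group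
    rwa [h3] at h2

theorem Cor.C_mem' {κ : P.Cor} (k : ¬ P.st κ.v κ.ε κ.h) (c : P.X.C κ.v) :
    (c : A) ∈ P.E κ.h := by
  have h1 : sd (P.X.s κ.v) κ.ε (c : A) ∈ P.E κ.h :=
    (P.tree' κ.h κ.δ).vert κ.t κ.j (P.X.mem κ.i c)
  rcases hε : κ.ε with _ | _
  · rw [hε] at h1; exact h1
  · rw [hε, sd_true] at h1
    have h2 := mul_mem (mul_mem (sV_mem (Cor.st' k)) h1) (inv_mem (sV_mem (Cor.st' k)))
    have h3 : P.X.s κ.v * ((P.X.s κ.v)⁻¹ * c * P.X.s κ.v) * (P.X.s κ.v)⁻¹ = c := by group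
    rwa [h3] at h2

theorem gl_fix {h : H} {δ : Bool} {v : V} (k : P.st' h δ v) (ε : Bool) (c : P.X.C v)
    (b : P.Y.C h) (hb : sd (P.Y.s h) δ (b : B) ∈ P.D v) :
    P.gl v ε (c, ⟨_, hb⟩) = (c, ⟨_, hb⟩) := by
  cases ε
  · exact P.fix k c b hb
  · rfl

theorem gl'_fix {v : V} {ε : Bool} {h : H} (k : P.st v ε h) (δ : Bool) (c : P.X.C v)
    (b : P.Y.C h) (hc : sd (P.X.s v) ε (c : A) ∈ P.E h) :
    P.gl' h δ (⟨_, hc⟩, b) = (⟨_, hc⟩, b) := by
  cases δ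
  · exact P.fix' k c b hc
  · rfl

/-- edge groups brick – vertical wall -/
noncomputable def homP (p : P.PI) : P.X.C p.v × P.Y.W p.t →* P.Amb × P.Amb :=
  ((P.inB p.t).comp (P.toBrick p.i)).prod ((P.inV p.v).comp (P.toWall p.i))

/-- edge groups brick – horizontal wall -/
noncomputable def homQ (q : P.QI) : P.X.W q.t × P.Y.C q.h →* P.Amb × P.Amb :=
  ((P.inB q.t).comp (P.toBrick' q.j)).prod ((P.inH q.h).comp (P.toWall' q.j))

/-- edge groups at the junctions, vertical wall through -/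
def homR1 (v : V) (ε : Bool) : P.X.C v × P.D v →* P.Amb × P.Amb :=
  ((MonoidHom.inr _ _).comp (((sdHom (P.X.s v) ε).comp (P.X.C v).subtype).prodMap
    (P.D v).subtype)).prod ((P.inV v).comp (P.gl v ε).toMonoidHom)

/-- edge groups at the junctions, horizontal wall through -/
def homR2 (h : H) (δ : Bool) : P.E h × P.Y.C h →* P.Amb × P.Amb :=
  ((P.inH h).comp (P.gl' h δ).toMonoidHom).prod
    ((MonoidHom.inr _ _).comp ((P.E h).subtype.prodMap
      ((sdHom (P.Y.s h) δ).comp (P.Y.C h).subtype)))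

theorem homP_apply (p : P.PI) (c : P.X.C p.v) (w : P.Y.W p.t) : homP p (c, w) =
    (P.inB p.t (P.u p.t (P.X.side p.i c) * P.u' p.t w),
      P.inV p.v (P.gl p.v p.ε (c, ⟨w, (P.tree p.v p.ε).vert p.t p.i w.2⟩))) := rfl

theorem homQ_apply (q : P.QI) (w : P.X.W q.t) (c : P.Y.C q.h) : homQ q (w, c) =
    (P.inB q.t (P.u q.t w * P.u' q.t (P.Y.side q.j c)),
      P.inH q.h (P.gl' q.h q.δ (⟨w, (P.tree' q.h q.δ).vert q.t q.j w.2⟩, c))) := rfl

theorem homR1_apply (v : V) (ε : Bool) (c : P.X.C v) (b : P.D v) : homR1 v ε (c, b) =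
    ((1, (sd (P.X.s v) ε (c : A), (b : B))), P.inV v (P.gl v ε (c, b))) := rfl

theorem homR2_apply (h : H) (δ : Bool) (a : P.E h) (c : P.Y.C h) : homR2 h δ (a, c) =
    (P.inH h (P.gl' h δ (a, c)), (1, ((a : A), sd (P.Y.s h) δ (c : B)))) := rfl

/-- the edge groups at the junctions -/
def LR (r : V × H × Bool × Bool) : Subgroup (P.Amb × P.Amb) :=
  if r.2.2.2 then (((P.Y.C r.2.1).comap ((P.D r.1).subtype.comp (MonoidHom.snd _ _))).map
      (homR1 r.1 r.2.2.1) : Subgroup (P.Amb × P.Amb))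
    else ((P.X.C r.1).comap ((P.E r.2.1).subtype.comp (MonoidHom.fst _ _))).map
      (homR2 r.2.1 r.2.2.1)

theorem mem_LR_true {v : V} {h : H} {ε : Bool} {z : P.Amb × P.Amb} :
    z ∈ LR (P := P) (v, h, ε, true) ↔ ∃ (c : P.X.C v) (b : P.D v), (b : B) ∈ P.Y.C h ∧
      homR1 v ε (c, b) = z := by
  unfold LR
  rw [if_pos rfl, Subgroup.mem_map]
  constructor
  · rintro ⟨⟨c, b⟩, h1, h2⟩
    exact ⟨c, b, h1, h2⟩
  · rintro ⟨c, b, h1, h2⟩
    exact ⟨(c, b), h1, h2⟩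

theorem mem_LR_false {v : V} {h : H} {δ : Bool} {z : P.Amb × P.Amb} :
    z ∈ LR (P := P) (v, h, δ, false) ↔ ∃ (a : P.E h) (c : P.Y.C h), (a : A) ∈ P.X.C v ∧
      homR2 h δ (a, c) = z := by
  unfold LR
  rw [if_neg (by simp), Subgroup.mem_map]
  constructor
  · rintro ⟨⟨c, b⟩, h1, h2⟩
    exact ⟨c, b, h1, h2⟩
  · rintro ⟨c, b, h1, h2⟩
    exact ⟨(c, b), h1, h2⟩

open Classical in
/-- the elements of the junction group of a corner -/
noncomputable def rr (κ : P.Cor) (c : P.X.C κ.v) (b : P.Y.C κ.h) : P.Amb × P.Amb :=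
  if k : P.st κ.v κ.ε κ.h then homR1 κ.v κ.ε (c, ⟨b, Cor.C_mem k b⟩)
    else homR2 κ.h κ.δ (⟨c, Cor.C_mem' k c⟩, b)

theorem rr_true {κ : P.Cor} (k : P.st κ.v κ.ε κ.h) (c : P.X.C κ.v) (b : P.Y.C κ.h) :
    rr κ c b = homR1 κ.v κ.ε (c, ⟨b, Cor.C_mem k b⟩) := by
  rw [rr, dif_pos k]

theorem rr_false {κ : P.Cor} (k : ¬ P.st κ.v κ.ε κ.h) (c : P.X.C κ.v) (b : P.Y.C κ.h) :
    rr κ c b = homR2 (P := P) κ.h κ.δ (⟨c, Cor.C_mem' k c⟩, b) := by
  rw [rr, dif_neg k]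

theorem rr_mem (κ : P.Cor) (c : P.X.C κ.v) (b : P.Y.C κ.h) : rr κ c b ∈ LR (P := P) κ.r := by
  by_cases k : P.st κ.v κ.ε κ.h
  · rw [rr_true k, Cor.r_true k, mem_LR_true]
    exact ⟨c, _, b.2, rfl⟩
  · rw [rr_false k, Cor.r_false k, mem_LR_false]
    exact ⟨_, b, c.2, rfl⟩

theorem exists_rr {κ : P.Cor} {z : P.Amb × P.Amb} (hz : z ∈ LR (P := P) κ.r) :
    ∃ c b, rr κ c b = z := by
  by_cases k : P.st κ.v κ.ε κ.h
  · rw [Cor.r_true k, mem_LR_true] at hz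
    obtain ⟨c, b, h1, h2⟩ := hz
    exact ⟨c, ⟨b, h1⟩, by rw [rr_true k]; exact h2⟩
  · rw [Cor.r_false k, mem_LR_false] at hz
    obtain ⟨a, b, h1, h2⟩ := hz
    exact ⟨⟨a, h1⟩, b, by rw [rr_false k]; exact h2⟩

open Classical in
/-- the element `x` of a corner -/
noncomputable def ex (κ : P.Cor) : P.Amb :=
  if k : P.st κ.v κ.ε κ.h then 1
    else (P.inH κ.h (P.gl' κ.h κ.δ (pw ⟨P.X.s κ.v, sV_mem (Cor.st' k)⟩ κ.ε, 1)))⁻¹

open Classical in
/-- the element `b` of a corner -/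
noncomputable def eb (κ : P.Cor) : P.Amb :=
  if k : P.st κ.v κ.ε κ.h then P.inV κ.v (P.gl κ.v κ.ε (1, pw ⟨P.Y.s κ.h, sH_mem k⟩ κ.δ))
    else 1

theorem ex_true {κ : P.Cor} (k : P.st κ.v κ.ε κ.h) : ex κ = 1 := by rw [ex, dif_pos k]
theorem ex_false {κ : P.Cor} (k : ¬ P.st κ.v κ.ε κ.h) : ex κ =
    (P.inH κ.h (P.gl' κ.h κ.δ (pw ⟨P.X.s κ.v, sV_mem (Cor.st' k)⟩ κ.ε, 1)))⁻¹ := by
  rw [ex, dif_neg k]
theorem eb_true {κ : P.Cor} (k : P.st κ.v κ.ε κ.h) : eb κ =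
    P.inV κ.v (P.gl κ.v κ.ε (1, pw ⟨P.Y.s κ.h, sH_mem k⟩ κ.δ)) := by rw [eb, dif_pos k]
theorem eb_false {κ : P.Cor} (k : ¬ P.st κ.v κ.ε κ.h) : eb κ = 1 := by rw [eb, dif_neg k]

/-- the corner at the brick, elements -/
theorem F0 (κ : P.Cor) (c : P.X.C κ.v) (b : P.Y.C κ.h) :
    (homP κ.p (c, P.Y.side κ.j b)).1 = (homQ κ.q (P.X.side κ.i c, b)).1 := rfl

theorem F1 (κ : P.Cor) (c : P.X.C κ.v) (b : P.Y.C κ.h) :
    (homQ κ.q (P.X.side κ.i c, b)).2 * ex κ = ex κ * (rr κ c b).1 := by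
  by_cases k : P.st κ.v κ.ε κ.h
  · rw [ex_true k, rr_true k, homQ_apply, homR1_apply, mul_one, one_mul]
    have h1 : sd (P.X.s κ.v) κ.ε (c : A) ∈ P.E κ.h :=
      (P.tree' κ.h κ.δ).vert κ.t κ.j (P.X.mem κ.i c)
    have := gl'_fix k κ.δ c b h1
    change P.inH κ.h (P.gl' κ.h κ.δ (⟨sd (P.X.s κ.v) κ.ε (c : A), h1⟩, b)) = _
    rw [this]
    rfl
  · rw [ex_false k, rr_false k, homQ_apply, homR2_apply]
    change P.inH κ.h (P.gl' κ.h κ.δ (⟨(P.X.side κ.i c : A), _⟩, b)) * _ = _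
    rw [eq_inv_mul_iff_mul_eq, ← mul_assoc, mul_inv_eq_iff_eq_mul, ← map_mul, ← map_mul,
      ← map_mul, ← map_mul]
    congr 2
    refine Prod.ext ?_ (by simp)
    apply Subtype.ext
    simp only [Prod.mk_mul_mk, Subgroup.coe_mul, Net.coe_side]
    have h2 : ((pw (⟨P.X.s κ.v, sV_mem (Cor.st' k)⟩ : P.E κ.h) κ.ε : P.E κ.h) : A) =
        pw (P.X.s κ.v) κ.ε := by
      rcases κ.ε with _ | _ <;> rfl
    rw [h2]
    exact pw_sd _ _ _

theorem F2 (κ : P.Cor) (c : P.X.C κ.v) (b : P.Y.C κ.h) :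
    (rr κ c b).2 * eb κ = eb κ * (homP κ.p (c, P.Y.side κ.j b)).2 := by
  by_cases k : P.st κ.v κ.ε κ.h
  · rw [eb_true k, rr_true k, homP_apply, homR1_apply]
    change P.inV κ.v (P.gl κ.v κ.ε _) * _ = _ * P.inV κ.v (P.gl κ.v κ.ε
      (c, ⟨(P.Y.side κ.j b : B), _⟩))
    rw [← map_mul, ← map_mul, ← map_mul, ← map_mul]
    congr 2
    refine Prod.ext (by simp) ?_
    apply Subtype.ext
    simp only [Prod.mk_mul_mk, Subgroup.coe_mul, Net.coe_side]
    have h2 : ((pw (⟨P.Y.s κ.h, sH_mem k⟩ : P.D κ.v) κ.δ : P.D κ.v) : B) =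
        pw (P.Y.s κ.h) κ.δ := by
      rcases κ.δ with _ | _ <;> rfl
    rw [h2]
    exact (pw_sd _ _ _).symm
  · rw [eb_false k, rr_false k, homP_apply, homR2_apply, mul_one, one_mul]
    have h1 : sd (P.Y.s κ.h) κ.δ (b : B) ∈ P.D κ.v :=
      (P.tree κ.v κ.ε).vert κ.t κ.i (P.Y.mem κ.j b)
    have := gl_fix (Cor.st' k) κ.ε c b h1
    change _ = P.inV κ.v (P.gl κ.v κ.ε (c, ⟨sd (P.Y.s κ.h) κ.δ (b : B), h1⟩))
    rw [this]
    rfl

theorem toBrick_injective (p : P.PI) : Injective (P.toBrick p.i) := by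
  rw [injective_iff_map_eq_one]
  rintro ⟨c, w⟩ h
  have h1 : P.u p.t (P.X.side p.i c) * P.u' p.t w = 1 := h
  obtain ⟨h2, h3⟩ := P.indep _ _ _ h1
  rw [map_eq_one_iff _ (coe_side_injective P.X p.i)] at h2
  exact Prod.ext h2 h3

theorem toBrick'_injective (q : P.QI) : Injective (P.toBrick' q.j) := by
  rw [injective_iff_map_eq_one]
  rintro ⟨w, c⟩ h
  have h1 : P.u q.t w * P.u' q.t (P.Y.side q.j c) = 1 := h
  obtain ⟨h2, h3⟩ := P.indep _ _ _ h1
  rw [map_eq_one_iff _ (coe_side_injective P.Y q.j)] at h3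
  exact Prod.ext h2 h3

theorem toWall_injective (p : P.PI) : Injective (P.toWall p.i) := by
  refine (P.gl p.v p.ε).injective.comp ?_
  rintro ⟨c, w⟩ ⟨c', w'⟩ h
  have h1 : c = c' := congrArg Prod.fst h
  have h2 := congrArg (fun z => ((z : P.X.C p.v × P.D p.v).2 : B)) h
  exact Prod.ext h1 (Subtype.ext h2)

theorem toWall'_injective (q : P.QI) : Injective (P.toWall' q.j) := by
  refine (P.gl' q.h q.δ).injective.comp ?_
  rintro ⟨c, w⟩ ⟨c', w'⟩ h
  have h1 : w = w' := congrArg Prod.snd h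
  have h2 := congrArg (fun z => ((z : P.E q.h × P.Y.C q.h).1 : A)) h
  exact Prod.ext (Subtype.ext h2) h1

theorem brick_key {κ : P.Cor} {c : P.X.C κ.v} {w : P.Y.W κ.t} {a : P.X.W κ.t} {b : P.Y.C κ.h}
    (h : (homP κ.p (c, w)).1 = (homQ κ.q (a, b)).1) : a = P.X.side κ.i c ∧ w = P.Y.side κ.j b := by
  have h1 : P.u κ.t (P.X.side κ.i c) * P.u' κ.t w = P.u κ.t a * P.u' κ.t (P.Y.side κ.j b) :=
    P.inB_injective κ.t h
  have h2 : P.u κ.t (a⁻¹ * P.X.side κ.i c) * P.u' κ.t (w * (P.Y.side κ.j b)⁻¹) = 1 := by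
    rw [map_mul, map_mul, map_inv, map_inv]
    calc (P.u κ.t a)⁻¹ * P.u κ.t (P.X.side κ.i c) * (P.u' κ.t w * (P.u' κ.t (P.Y.side κ.j b))⁻¹)
        = (P.u κ.t a)⁻¹ * (P.u κ.t (P.X.side κ.i c) * P.u' κ.t w) *
          (P.u' κ.t (P.Y.side κ.j b))⁻¹ := by group
      _ = 1 := by rw [h1]; group
  obtain ⟨h3, h4⟩ := P.indep _ _ _ h2
  exact ⟨(inv_mul_eq_one.1 h3), (mul_inv_eq_one.1 h4)⟩

/-- the letter of a horizontal wall which ends at a vertical wall does not lie in a brick -/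
theorem s_not_mem {v : V} {ε : Bool} {h : H} (k : P.st v ε h) {t : T} (i : P.X.inc v ε t)
    (j : P.Y.inc h false t) (j' : P.Y.inc h true t) : P.Y.s h ∉ P.Y.W t := by
  intro hs
  refine (P.tree v ε).red (v := h) (δ := true) (t := t)
    (Net.Path.one k i j' (inv_mem hs)) j ?_
  rw [lt_true, mul_inv_cancel]

theorem s_not_mem' {h : H} {δ : Bool} {v : V} (k : P.st' h δ v) {t : T} (i : P.Y.inc h δ t)
    (j : P.X.inc v false t) (j' : P.X.inc v true t) : P.X.s v ∉ P.X.W t := by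
  intro hs
  refine (P.tree' h δ).red (v := v) (δ := true) (t := t)
    (Net.Path.one k i j' (inv_mem hs)) j ?_
  rw [lt_true, mul_inv_cancel]

end Plan

end Pool.TPL
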