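import Pool.Agent.Lib.TPL.Cond
import Pool.Agent.Lib.GS.Main

/-!
# T-junction plans: the main theorem
-/

namespace Pool.TPL

open Pool.GS Pool.GSE Word Function

namespace Plan

variable {A B T V H : Type} [Group A] [Group B] (P : Plan A B T V H)

theorem mk_rel {a b : FreeGroup P.Gen} (h : P.Rel a b) :
    PresentedGroup.mk {r : FreeGroup P.Gen | ∃ a b, P.Rel a b ∧ r = a * b⁻¹} a =
      PresentedGroup.mk {r : FreeGroup P.Gen | ∃ a b, P.Rel a b ∧ r = a * b⁻¹} b := by
  have h1 : PresentedGroup.mk {r : FreeGroup P.Gen | ∃ a b, P.Rel a b ∧ r = a * b⁻¹}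
      (a * b⁻¹) = 1 :=
    PresentedGroup.mk_eq_one_iff.mpr (Subgroup.subset_normalClosure ⟨a, b, h, rfl⟩)
  rw [map_mul, map_inv] at h1
  exact mul_inv_eq_one.1 h1

/-- the bricks in the group of the plan -/
def ofBrick (t : T) : P.G t →* P.Grp :=
  MonoidHom.mk' (fun x => PresentedGroup.of (.brick t x)) fun x y =>
    (P.mk_rel (.brick t x y)).symm

/-- the vertical walls in the group of the plan -/
def ofWall (v : V) : P.X.C v × P.D v →* P.Grp :=
  MonoidHom.mk' (fun z => PresentedGroup.of (.wall v z)) fun z z' =>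
    (P.mk_rel (.wall v z z')).symm

/-- the horizontal walls in the group of the plan -/
def ofWall' (h : H) : P.E h × P.Y.C h →* P.Grp :=
  MonoidHom.mk' (fun z => PresentedGroup.of (.wall' h z)) fun z z' =>
    (P.mk_rel (.wall' h z z')).symm

/-- the letters of the sides of vertical walls -/
def let_ {v : V} {ε : Bool} {t : T} (i : P.X.inc v ε t) : P.Grp :=
  PresentedGroup.of (.letter v ε t i)

/-- the letters of the sides of horizontal walls -/
def let' {h : H} {δ : Bool} {t : T} (j : P.Y.inc h δ t) : P.Grp :=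
  PresentedGroup.of (.letter' h δ t j)

/-- the universal group of the triangle system -/
abbrev U := P.tri.sys.U

/-- the vertex group -/
noncomputable def bs : P.Amb →* P.U := P.tri.sys.base

theorem bs_injective : Injective P.bs := P.tri.sys.base_injective P.girth

/-- letters brick – vertical wall -/
noncomputable def lP (p : P.PI) : P.U := P.tri.sys.letter (.P p true)
/-- letters brick – horizontal wall -/
noncomputable def lQ (q : P.QI) : P.U := P.tri.sys.letter (.Q q true)
/-- letters of the junctions -/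
noncomputable def lR (r : V × H × Bool × Bool) : P.U := P.tri.sys.letter (.R r true)

theorem bs_lP (p : P.PI) (z : P.X.C p.v × P.Y.W p.t) :
    P.bs (P.inB p.t (P.toBrick p.i z)) * P.lP p = P.lP p * P.bs (P.inV p.v (P.toWall p.i z)) :=
  P.tri.sys.base_mul_letter (e := .P p true) ⟨z, rfl⟩

theorem bs_lQ (q : P.QI) (z : P.X.W q.t × P.Y.C q.h) :
    P.bs (P.inB q.t (P.toBrick' q.j z)) * P.lQ q = P.lQ q * P.bs (P.inH q.h (P.toWall' q.j z)) :=
  P.tri.sys.base_mul_letter (e := .Q q true) ⟨z, rfl⟩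

theorem tri_rel (κ : P.Cor) : P.lP κ.p = P.lQ κ.q * (P.bs (ex κ) * (P.lR κ.r * P.bs (eb κ))) := by
  have h : P.tri.sys.T (.P κ.p true) 1 (.Q κ.q true) (ex κ) (.R κ.r true) (eb κ) := by
    refine ⟨κ, 1, 1, 1, 1, 1, 1, one_mem _, one_mem _, one_mem _, rfl, rfl, rfl, ?_, ?_, ?_⟩
    · simp [tri]
    · simp [tri]
    · simp [tri]
  have := P.tri.sys.letter_eq h
  rw [map_one, one_mul] at this
  exact this

/-- the images of the generators -/
noncomputable def val : P.Gen → P.U
  | .brick t x => P.bs (P.inB t x)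
  | .wall v z => P.bs (P.inV v z)
  | .wall' h z => P.bs (P.inH h z)
  | .letter v ε t i => P.lP ⟨v, ε, t, i⟩
  | .letter' h δ t j => P.lQ ⟨h, δ, t, j⟩

theorem rel_val {a b : FreeGroup P.Gen} (h : P.Rel a b) :
    FreeGroup.lift P.val a = FreeGroup.lift P.val b := by
  induction h with
  | brick t x y => simp [val]
  | wall v z z' => simp [val]
  | wall' h z z' => simp [val]
  | side i z =>
    simp only [map_mul, FreeGroup.lift_apply_of, val]
    exact P.bs_lP ⟨_, _, _, i⟩ z
  | side' i z =>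
    simp only [map_mul, FreeGroup.lift_apply_of, val]
    exact P.bs_lQ ⟨_, _, _, i⟩ z
  | @junction v ε h k t t' i j i' j' =>
    simp only [map_mul, map_inv, FreeGroup.lift_apply_of, val]
    have h1 := P.tri_rel ⟨v, ε, h, false, t, i, j⟩
    have h2 := P.tri_rel ⟨v, ε, h, true, t', i', j'⟩
    rw [ex_true (κ := ⟨v, ε, h, false, t, i, j⟩) k,
      eb_true (κ := ⟨v, ε, h, false, t, i, j⟩) k,
      Cor.r_true (κ := ⟨v, ε, h, false, t, i, j⟩) k, map_one, one_mul] at h1
    rw [ex_true (κ := ⟨v, ε, h, true, t', i', j'⟩) k,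
      eb_true (κ := ⟨v, ε, h, true, t', i', j'⟩) k,
      Cor.r_true (κ := ⟨v, ε, h, true, t', i', j'⟩) k, map_one, one_mul] at h2
    have h3 : P.bs (P.inV v (P.gl v ε (1, pw ⟨P.Y.s h, sH_mem k⟩ false))) = 1 := by
      have h4 : ((1 : P.X.C v), pw (⟨P.Y.s h, sH_mem k⟩ : P.D v) false) = 1 := rfl
      rw [h4, map_one, map_one, map_one]
    change P.lP ⟨v, ε, t, i⟩ = P.lQ ⟨h, false, t, j⟩ * (P.lR (v, h, ε, true) *
      P.bs (P.inV v (P.gl v ε (1, pw ⟨P.Y.s h, sH_mem k⟩ false)))) at h1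
    change P.lP ⟨v, ε, t', i'⟩ = P.lQ ⟨h, true, t', j'⟩ * (P.lR (v, h, ε, true) *
      P.bs (P.inV v (P.gl v ε (1, pw ⟨P.Y.s h, sH_mem k⟩ true)))) at h2
    rw [h3, mul_one] at h1
    rw [h1, h2, inv_mul_cancel_left, inv_mul_cancel_left]
    rfl
  | @junction' h δ v k t t' i j i' j' =>
    simp only [map_mul, map_inv, FreeGroup.lift_apply_of, val]
    have h1 := P.tri_rel ⟨v, false, h, δ, t, j, i⟩
    have h2 := P.tri_rel ⟨v, true, h, δ, t', j', i'⟩
    have k1 : ¬ P.st v false h := Cor.not_st j i k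
    have k2 : ¬ P.st v true h := Cor.not_st j' i' k
    rw [ex_false (κ := ⟨v, false, h, δ, t, j, i⟩) k1,
      eb_false (κ := ⟨v, false, h, δ, t, j, i⟩) k1,
      Cor.r_false (κ := ⟨v, false, h, δ, t, j, i⟩) k1, map_one, mul_one] at h1
    rw [ex_false (κ := ⟨v, true, h, δ, t', j', i'⟩) k2,
      eb_false (κ := ⟨v, true, h, δ, t', j', i'⟩) k2,
      Cor.r_false (κ := ⟨v, true, h, δ, t', j', i'⟩) k2, map_one, mul_one] at h2
    change P.lP ⟨v, false, t, j⟩ = P.lQ ⟨h, δ, t, i⟩ *
      (P.bs (P.inH h (P.gl' h δ (pw ⟨P.X.s v, sV_mem k⟩ false, 1)))⁻¹ *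
        P.lR (v, h, δ, false)) at h1
    change P.lP ⟨v, true, t', j'⟩ = P.lQ ⟨h, δ, t', i'⟩ *
      (P.bs (P.inH h (P.gl' h δ (pw ⟨P.X.s v, sV_mem k⟩ true, 1)))⁻¹ *
        P.lR (v, h, δ, false)) at h2
    have h3 : P.inH h (P.gl' h δ (pw ⟨P.X.s v, sV_mem k⟩ false, 1)) = 1 := by
      have h4 : (pw (⟨P.X.s v, sV_mem k⟩ : P.E h) false, (1 : P.Y.C h)) = 1 := rfl
      rw [h4, map_one, map_one]
    rw [h3, inv_one, map_one, one_mul] at h1
    rw [h1, h2, map_inv]
    simp only [mul_inv_rev, inv_inv, mul_assoc, inv_mul_cancel_left]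
    rw [inv_mul_cancel, mul_one]
    rfl

/-- the homomorphism to the universal group -/
noncomputable def toU : P.Grp →* P.U :=
  PresentedGroup.toGroup (f := P.val) (by
    rintro r ⟨a, b, h, rfl⟩
    rw [map_mul, map_inv, P.rel_val h, mul_inv_cancel])

theorem toU_ofBrick (t : T) (x : P.G t) : P.toU (P.ofBrick t x) = P.bs (P.inB t x) :=
  PresentedGroup.toGroup.of _

theorem toU_ofWall (v : V) (z : P.X.C v × P.D v) : P.toU (P.ofWall v z) = P.bs (P.inV v z) :=
  PresentedGroup.toGroup.of _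

theorem toU_ofWall' (h : H) (z : P.E h × P.Y.C h) : P.toU (P.ofWall' h z) = P.bs (P.inH h z) :=
  PresentedGroup.toGroup.of _

theorem toU_let {v : V} {ε : Bool} {t : T} (i : P.X.inc v ε t) :
    P.toU (P.let_ i) = P.lP ⟨v, ε, t, i⟩ := PresentedGroup.toGroup.of _

theorem toU_let' {h : H} {δ : Bool} {t : T} (j : P.Y.inc h δ t) :
    P.toU (P.let' j) = P.lQ ⟨h, δ, t, j⟩ := PresentedGroup.toGroup.of _

/-- **The groups of the bricks embed.** -/
theorem ofBrick_injective (t : T) : Injective (P.ofBrick t) := by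
  intro x y h
  have h1 := congrArg P.toU h
  rw [toU_ofBrick, toU_ofBrick] at h1
  exact P.inB_injective t (P.bs_injective h1)

/-- **The groups of the vertical walls embed.** -/
theorem ofWall_injective (v : V) : Injective (P.ofWall v) := by
  intro x y h
  have h1 := congrArg P.toU h
  rw [toU_ofWall, toU_ofWall] at h1
  exact P.inV_injective v (P.bs_injective h1)

/-- **The groups of the horizontal walls embed.** -/
theorem ofWall'_injective (h : H) : Injective (P.ofWall' h) := by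
  intro x y k
  have h1 := congrArg P.toU k
  rw [toU_ofWall', toU_ofWall'] at h1
  exact P.inH_injective h (P.bs_injective h1)

end Plan

end Pool.TPL
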