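import Pool.Agent.Lib.TPL.Main
import Pool.Agent.Lib.GSG.EngineINV

/-!
# T-junction plans: rows and columns are independent

A row path runs through bricks and vertical walls, a column path through bricks and horizontal
walls.  The lift of a reduced row path does not lie in a double coset of the vertex group, and a
reduced row path followed by a reduced column path neither.
-/

namespace Pool.TPL

open Pool.GS Pool.GSE Word Sys Function

namespace Plan

variable {A B T V H : Type} [Group A] [Group B] (P : Plan A B T V H)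

/-- `Row t₀ v δ t x g` : a reduced path in the net of the bricks and the vertical walls which starts
in the brick `t₀`, first crosses the wall `v` (from the side `false` to the side `true` if `δ` is
true, in the opposite direction otherwise) and ends in the brick `t`; its value in `A` is `x`, its
lift to the group of the plan is `g` -/
inductive Row : T → V → Bool → T → A → P.Grp → Prop
  | one {t₀ : T} {v : V} {δ : Bool} {t : T} (i₀ : P.X.inc v (!δ) t₀) (i : P.X.inc v δ t)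
      (w : P.X.W t) :
      Row t₀ v δ t (lt (P.X.s v) δ * (w : A)) (P.let_ i₀ * (P.let_ i)⁻¹ * P.ofBrick t (P.u t w))
  | cons {t₀ : T} {v : V} {δ : Bool} {t : T} (i₀ : P.X.inc v (!δ) t₀) (i : P.X.inc v δ t)
      (w : P.X.W t) {v' : V} {δ' : Bool} {t' : T} {x : A} {g : P.Grp} :
      ¬ (v' = v ∧ δ' = !δ ∧ ∃ c ∈ P.X.C v, (w : A) = sd (P.X.s v) δ c) → Row t v' δ' t' x g →
      Row t₀ v δ t' (lt (P.X.s v) δ * (w : A) * x)
        (P.let_ i₀ * (P.let_ i)⁻¹ * P.ofBrick t (P.u t w) * g)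

/-- `Col t₀ h δ t x g` : a reduced path in the net of the bricks and the horizontal walls which
starts in the brick `t₀`, first crosses the wall `h` and ends in the brick `t`; its value in `B` is
`x`, its lift to the group of the plan is `g` -/
inductive Col : T → H → Bool → T → B → P.Grp → Prop
  | one {t₀ : T} {h : H} {δ : Bool} {t : T} (j₀ : P.Y.inc h (!δ) t₀) (j : P.Y.inc h δ t)
      (w : P.Y.W t) :
      Col t₀ h δ t (lt (P.Y.s h) δ * (w : B)) (P.let' j₀ * (P.let' j)⁻¹ * P.ofBrick t (P.u' t w))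
  | cons {t₀ : T} {h : H} {δ : Bool} {t : T} (j₀ : P.Y.inc h (!δ) t₀) (j : P.Y.inc h δ t)
      (w : P.Y.W t) {h' : H} {δ' : Bool} {t' : T} {x : B} {g : P.Grp} :
      ¬ (h' = h ∧ δ' = !δ ∧ ∃ c ∈ P.Y.C h, (w : B) = sd (P.Y.s h) δ c) → Col t h' δ' t' x g →
      Col t₀ h δ t' (lt (P.Y.s h) δ * (w : B) * x)
        (P.let' j₀ * (P.let' j)⁻¹ * P.ofBrick t (P.u' t w) * g)

variable {P}

/-- the words of row paths -/
theorem Row.word {t₀ : T} {v : V} {δ : Bool} {t : T} {x : A} {g : P.Grp}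
    (h : P.Row t₀ v δ t x g) : ∃ (i₀ : P.X.inc v (!δ) t₀)
      (l l' : List (Ed P.PI P.QI (V × H × Bool × Bool) × P.Amb)) (p : P.PI) (c : P.Amb),
      (.P ⟨v, !δ, t₀, i₀⟩ true, 1) :: l = l' ++ [(.P p false, c)] ∧
      P.tri.sys.Geod ((.P ⟨v, !δ, t₀, i₀⟩ true, 1) :: l) ∧
      P.toU g = P.tri.sys.eval (wd ((.P ⟨v, !δ, t₀, i₀⟩ true, 1) :: l)) := by
  induction h with
  | @one t₀ v δ t i₀ i w =>
    refine ⟨i₀, [(.P ⟨v, δ, t, i⟩ false, P.inB t (P.u t w))],
      [(.P ⟨v, !δ, t₀, i₀⟩ true, 1)], ⟨v, δ, t, i⟩, _, rfl, ?_, ?_⟩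
    · unfold Sys.Geod
      rw [List.isChain_cons_cons]
      exact ⟨TriData.far_wall vcond (by simp) _, List.isChain_singleton _⟩
    · have h1 : P.tri.sys.letter (.P ⟨v, δ, t, i⟩ false) = (P.lP ⟨v, δ, t, i⟩)⁻¹ :=
        P.tri.sys.letter_bar (.P ⟨v, δ, t, i⟩ true)
      rw [map_mul, map_mul, map_inv, toU_let, toU_let, toU_ofBrick]
      simp only [wd_cons, wd_nil, map_mul, map_one, one_mul, mul_one, Sys.eval_ε, Sys.eval_ι, h1,
        mul_assoc]
      rfl
  | @cons t₀ v δ t i₀ i w v' δ' t' x g hn _ ih =>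
    obtain ⟨i', l, l', p, c, h1, h2, h3⟩ := ih
    refine ⟨i₀, (.P ⟨v, δ, t, i⟩ false, P.inB t (P.u t w)) :: (.P ⟨v', !δ', t, i'⟩ true, 1) :: l,
      (.P ⟨v, !δ, t₀, i₀⟩ true, 1) :: (.P ⟨v, δ, t, i⟩ false, P.inB t (P.u t w)) :: l', p, c,
      by rw [h1]; rfl, ?_, ?_⟩
    · unfold Sys.Geod at h2 ⊢
      rw [List.isChain_cons_cons, List.isChain_cons_cons]
      refine ⟨TriData.far_wall vcond (by simp) _, TriData.far_brick ?_, h2⟩
      rintro ⟨h4, l₁, ⟨c₁, w₁⟩, h5⟩
      simp only [PI.mk.injEq] at h4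
      obtain ⟨rfl, rfl, -⟩ := h4
      apply hn
      refine ⟨rfl, (Bool.not_not _).symm, c₁, c₁.2, ?_⟩
      have h6 : P.inB t (P.u t (P.X.side i c₁) * P.u' t w₁) = P.inB t (P.u t w) :=
        congrArg Prod.fst h5
      have h7 := P.inB_injective t h6
      have h8 : P.u t (w⁻¹ * P.X.side i c₁) * P.u' t w₁ = 1 := by
        rw [map_mul, map_inv, mul_assoc, h7, inv_mul_cancel]
      have h9 := (P.indep _ _ _ h8).1
      rw [inv_mul_eq_one] at h9
      exact congrArg Subtype.val h9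
    · have h1 : P.tri.sys.letter (.P ⟨v, δ, t, i⟩ false) = (P.lP ⟨v, δ, t, i⟩)⁻¹ :=
        P.tri.sys.letter_bar (.P ⟨v, δ, t, i⟩ true)
      rw [map_mul, map_mul, map_mul, map_inv, toU_let, toU_let, toU_ofBrick, h3]
      simp only [wd_cons, map_mul, map_one, one_mul, Sys.eval_ε, Sys.eval_ι, h1, mul_assoc]
      rfl

/-- the words of column paths -/
theorem Col.word {t₀ : T} {h : H} {δ : Bool} {t : T} {x : B} {g : P.Grp}
    (hc : P.Col t₀ h δ t x g) : ∃ (j₀ : P.Y.inc h (!δ) t₀)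
      (l l' : List (Ed P.PI P.QI (V × H × Bool × Bool) × P.Amb)) (q : P.QI) (c : P.Amb),
      (.Q ⟨h, !δ, t₀, j₀⟩ true, 1) :: l = l' ++ [(.Q q false, c)] ∧
      P.tri.sys.Geod ((.Q ⟨h, !δ, t₀, j₀⟩ true, 1) :: l) ∧
      P.toU g = P.tri.sys.eval (wd ((.Q ⟨h, !δ, t₀, j₀⟩ true, 1) :: l)) := by
  induction hc with
  | @one t₀ h δ t j₀ j w =>
    refine ⟨j₀, [(.Q ⟨h, δ, t, j⟩ false, P.inB t (P.u' t w))],
      [(.Q ⟨h, !δ, t₀, j₀⟩ true, 1)], ⟨h, δ, t, j⟩, _, rfl, ?_, ?_⟩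
    · unfold Sys.Geod
      rw [List.isChain_cons_cons]
      exact ⟨TriData.far_wall' hcond (by simp) _, List.isChain_singleton _⟩
    · have h1 : P.tri.sys.letter (.Q ⟨h, δ, t, j⟩ false) = (P.lQ ⟨h, δ, t, j⟩)⁻¹ :=
        P.tri.sys.letter_bar (.Q ⟨h, δ, t, j⟩ true)
      rw [map_mul, map_mul, map_inv, toU_let', toU_let', toU_ofBrick]
      simp only [wd_cons, wd_nil, map_mul, map_one, one_mul, mul_one, Sys.eval_ε, Sys.eval_ι, h1,
        mul_assoc]
      rfl
  | @cons t₀ h δ t j₀ j w h' δ' t' x g hn _ ih =>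
    obtain ⟨j', l, l', q, c, h1, h2, h3⟩ := ih
    refine ⟨j₀, (.Q ⟨h, δ, t, j⟩ false, P.inB t (P.u' t w)) :: (.Q ⟨h', !δ', t, j'⟩ true, 1) :: l,
      (.Q ⟨h, !δ, t₀, j₀⟩ true, 1) :: (.Q ⟨h, δ, t, j⟩ false, P.inB t (P.u' t w)) :: l', q, c,
      by rw [h1]; rfl, ?_, ?_⟩
    · unfold Sys.Geod at h2 ⊢
      rw [List.isChain_cons_cons, List.isChain_cons_cons]
      refine ⟨TriData.far_wall' hcond (by simp) _, TriData.far_brick' ?_, h2⟩
      rintro ⟨h4, l₁, ⟨w₁, c₁⟩, h5⟩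
      simp only [QI.mk.injEq] at h4
      obtain ⟨rfl, rfl, -⟩ := h4
      apply hn
      refine ⟨rfl, (Bool.not_not _).symm, c₁, c₁.2, ?_⟩
      have h6 : P.inB t (P.u t w₁ * P.u' t (P.Y.side j c₁)) = P.inB t (P.u' t w) :=
        congrArg Prod.fst h5
      have h7 := P.inB_injective t h6
      have h8 : P.u t w₁ * P.u' t (P.Y.side j c₁ * w⁻¹) = 1 := by
        rw [map_mul, map_inv, ← mul_assoc, h7, mul_inv_cancel]
      have h9 := (P.indep _ _ _ h8).2
      rw [mul_inv_eq_one] at h9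
      exact (congrArg Subtype.val h9).symm
    · have h1 : P.tri.sys.letter (.Q ⟨h, δ, t, j⟩ false) = (P.lQ ⟨h, δ, t, j⟩)⁻¹ :=
        P.tri.sys.letter_bar (.Q ⟨h, δ, t, j⟩ true)
      rw [map_mul, map_mul, map_mul, map_inv, toU_let', toU_let', toU_ofBrick, h3]
      simp only [wd_cons, map_mul, map_one, one_mul, Sys.eval_ε, Sys.eval_ι, h1, mul_assoc]
      rfl

/-- **The lift of a reduced row path does not lie in a double coset of the vertex group.** -/
theorem Row.ne {t₀ : T} {v : V} {δ : Bool} {t : T} {x : A} {g : P.Grp}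
    (h : P.Row t₀ v δ t x g) (a b : P.Amb) : P.bs a * P.toU g ≠ P.bs b := by
  obtain ⟨i₀, l, l', p, c, -, h2, h3⟩ := h.word
  rw [h3]
  exact Sys.base_mul_eval_wd_ne P.girth (by simp) h2 a b

/-- **The lift of a reduced column path does not lie in a double coset of the vertex group.** -/
theorem Col.ne {t₀ : T} {h : H} {δ : Bool} {t : T} {x : B} {g : P.Grp}
    (hc : P.Col t₀ h δ t x g) (a b : P.Amb) : P.bs a * P.toU g ≠ P.bs b := by
  obtain ⟨j₀, l, l', q, c, -, h2, h3⟩ := hc.word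
  rw [h3]
  exact Sys.base_mul_eval_wd_ne P.girth (by simp) h2 a b

/-- **The lift of a reduced row path followed by a reduced column path does not lie in a double
coset of the vertex group**; an arbitrary element `z` of the brick in the corner is allowed. -/
theorem Row.mul_col_ne {t₀ : T} {v : V} {δ : Bool} {t : T} {x : A} {g : P.Grp}
    (h : P.Row t₀ v δ t x g) {t₁ : T} {h' : H} {δ' : Bool} {t' : T} {y : B} {k : P.Grp}
    (hc : P.Col t₁ h' δ' t' y k) (z a b : P.Amb) :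
    P.bs a * P.toU g * P.bs z * P.toU k ≠ P.bs b := by
  obtain ⟨i₀, l, l', p, c, h1, h2, h3⟩ := h.word
  obtain ⟨j₀, m, m', q, d, -, g2, g3⟩ := hc.word
  rw [h1] at h2 h3
  have hg1 := GeodD.last (b := c * z) (GeodD.of_geod h2)
  have hg2 := GeodD.append (k := 1) hg1 (Pool.GSG.angGe_PQ _) (GeodD.of_geod g2)
  have key := Sys.base_mul_eval_wd_ne' P.girth (by simp) hg2 a b
  intro he
  apply key
  have h4 : ∀ (z : Ed P.PI P.QI (V × H × Bool × Bool) × P.Amb)
      (l₁ l₂ : List (Ed P.PI P.QI (V × H × Bool × Bool) × P.Amb)),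
      wd (l₁ ++ z :: l₂) = wd (l₁ ++ [z]) * wd l₂ := by
    intro z l₁ l₂
    rw [← wd_append, List.append_assoc]
    rfl
  rw [h3, g3] at he
  refine Eq.trans ?_ he
  rw [h4, wd_eq_wd_mul]
  simp only [map_mul, Sys.eval_ι, mul_assoc]
  rfl

/-- the same statement with an element of the brick in the corner -/
theorem Row.mul_brick_mul_col_ne {t₀ : T} {v : V} {δ : Bool} {t : T} {x : A} {g : P.Grp}
    (h : P.Row t₀ v δ t x g) {h' : H} {δ' : Bool} {t' : T} {y : B} {k : P.Grp}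
    (hc : P.Col t h' δ' t' y k) (z : P.G t) (a b : P.Amb) :
    P.bs a * P.toU (g * P.ofBrick t z * k) ≠ P.bs b := by
  have := h.mul_col_ne hc (P.inB t z) a b
  rw [map_mul, map_mul, toU_ofBrick]
  simpa only [mul_assoc] using this

/-- **Rows and columns through a brick are independent.**  `f` and `g` are homomorphisms to a group
`M` over the group of the plan; every element of `K` goes to an element of the brick `t₀` or to
such an element times the lift of a closed reduced row path at `t₀`, and the same for `L` and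
columns.  Then the map of sets `K × L → M`, `(a, b) ↦ f a * g b`, is injective. -/
theorem inv_of_row_col {K L M : Type*} [Group K] [Group L] [Group M] (φ : M →* P.Grp)
    (f : K →* M) (g : L →* M) (t₀ : T)
    (hf : ∀ a, (∃ w : P.X.W t₀, φ (f a) = P.ofBrick t₀ (P.u t₀ w) ∧ (w = 1 → a = 1)) ∨
      ∃ (w : P.X.W t₀) (v : V) (δ : Bool) (x : A) (γ : P.Grp), P.Row t₀ v δ t₀ x γ ∧
        φ (f a) = P.ofBrick t₀ (P.u t₀ w) * γ)
    (hg : ∀ b, (∃ w : P.Y.W t₀, φ (g b) = P.ofBrick t₀ (P.u' t₀ w) ∧ (w = 1 → b = 1)) ∨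
      ∃ (w : P.Y.W t₀) (h : H) (δ : Bool) (y : B) (γ : P.Grp), P.Col t₀ h δ t₀ y γ ∧
        φ (g b) = P.ofBrick t₀ (P.u' t₀ w) * γ) :
    Pool.GSG.INV f g := by
  intro a b hab
  have h0 : φ (f a) * φ (g b) = 1 := by rw [← map_mul, hab, map_one]
  rcases hf a with ⟨w, h1, h2⟩ | ⟨w, v, δ, x, γ, h1, h2⟩ <;>
  rcases hg b with ⟨w', h3, h4⟩ | ⟨w', h, δ', y, γ', h3, h4⟩
  · rw [h1, h3, ← map_mul, map_eq_one_iff _ (P.ofBrick_injective t₀)] at h0
    obtain ⟨h5, h6⟩ := P.indep _ _ _ h0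
    exact ⟨h2 h5, h4 h6⟩
  · exfalso
    rw [h1, h4, ← mul_assoc, ← map_mul] at h0
    have h5 := congrArg P.toU h0
    rw [map_mul, toU_ofBrick, map_one] at h5
    exact h3.ne (P.inB t₀ (P.u t₀ w * P.u' t₀ w')) 1 (by rw [h5, map_one])
  · exfalso
    rw [h2, h3] at h0
    have h5 := congrArg P.toU h0
    rw [map_mul, map_mul, toU_ofBrick, toU_ofBrick, map_one] at h5
    refine h1.ne (P.inB t₀ (P.u t₀ w)) (P.inB t₀ (P.u' t₀ w'))⁻¹ ?_
    rw [map_inv]
    exact eq_inv_of_mul_eq_one_left h5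
  · exfalso
    rw [h2, h4] at h0
    have h5 := congrArg P.toU h0
    rw [map_mul, map_mul, map_mul, toU_ofBrick, toU_ofBrick, map_one, ← mul_assoc] at h5
    exact h1.mul_col_ne h3 (P.inB t₀ (P.u' t₀ w')) (P.inB t₀ (P.u t₀ w)) 1 (by rw [h5, map_one])

/-! ### Reduction of paths -/

/-- the letters of a wall and the elements of its brick -/
theorem let_conj {v : V} {ε : Bool} {t : T} (i : P.X.inc v ε t) (c : P.X.C v)
    (hc : P.gl v ε (c, 1) = (c, 1)) :
    (P.let_ i)⁻¹ * P.ofBrick t (P.u t (P.X.side i c)) * P.let_ i = P.ofWall v (c, 1) := by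
  have h1 : P.ofBrick t (P.toBrick i (c, 1)) * P.let_ i = P.let_ i * P.ofWall v (P.toWall i (c, 1)) :=
    P.mk_rel (.side i (c, 1))
  have h2 : P.toBrick i (c, 1) = P.u t (P.X.side i c) := by
    change P.u t (P.X.side i c) * P.u' t 1 = _
    rw [map_one, mul_one]
  have h3 : P.toWall i (c, 1) = (c, 1) := hc
  rw [h2, h3] at h1
  rw [mul_assoc, h1, inv_mul_cancel_left]

/-- the letters of a wall and the elements of its brick -/
theorem let'_conj {h : H} {δ : Bool} {t : T} (j : P.Y.inc h δ t) (c : P.Y.C h)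
    (hc : P.gl' h δ (1, c) = (1, c)) :
    (P.let' j)⁻¹ * P.ofBrick t (P.u' t (P.Y.side j c)) * P.let' j = P.ofWall' h (1, c) := by
  have h1 : P.ofBrick t (P.toBrick' j (1, c)) * P.let' j =
      P.let' j * P.ofWall' h (P.toWall' j (1, c)) := P.mk_rel (.side' j (1, c))
  have h2 : P.toBrick' j (1, c) = P.u' t (P.Y.side j c) := by
    change P.u t 1 * P.u' t (P.Y.side j c) = _
    rw [map_one, one_mul]
  have h3 : P.toWall' j (1, c) = (1, c) := hc
  rw [h2, h3] at h1
  rw [mul_assoc, h1, inv_mul_cancel_left]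

end Plan

open Plan

theorem lt_mul_lt_not {G : Type*} [Group G] (s : G) (δ : Bool) : lt s δ * lt s (!δ) = 1 := by
  cases δ <;> simp

variable {A B T V H : Type} [Group A] [Group B]

/-- A group `K` over a row: `S` is a set of bricks, `L` a set of vertical walls such that no two
bricks of `S` lie at the same side of a wall of `L`; `e` maps the groups `X.W t`, `k` the letters of
the walls to `K`; `F` is a homomorphism to the group of the plan, `q t` are paths from the base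
point to the bricks. -/
structure RowData (P : Plan A B T V H) (S : Set T) (L : Set V) (K : Type*) [Group K] where
  e : ∀ t, P.X.W t →* K
  k : V → K
  F : K →* P.Grp
  q : T → P.Grp
  uniq : ∀ {v ε t t'}, v ∈ L → t ∈ S → t' ∈ S → P.X.inc v ε t → P.X.inc v ε t' → t = t'
  fix : ∀ {v}, v ∈ L → ∀ c, P.g v (c, 1) = (c, 1)
  rel : ∀ {v t t'}, v ∈ L → t ∈ S → t' ∈ S → ∀ (i : P.X.inc v false t) (i' : P.X.inc v true t')
    (c : P.X.C v), e t (P.X.side i c) * k v = k v * e t' (P.X.side i' c)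
  F_e : ∀ {t}, t ∈ S → ∀ w, F (e t w) = q t * P.ofBrick t (P.u t w) * (q t)⁻¹
  F_k : ∀ {v t t'}, v ∈ L → t ∈ S → t' ∈ S → ∀ (i : P.X.inc v false t) (i' : P.X.inc v true t'),
    F (k v) = q t * (P.let_ i * (P.let_ i')⁻¹) * (q t')⁻¹

/-- A group `K` over a column. -/
structure ColData (P : Plan A B T V H) (S : Set T) (L : Set H) (K : Type*) [Group K] where
  e : ∀ t, P.Y.W t →* K
  k : H → K
  F : K →* P.Grp
  q : T → P.Grp
  uniq : ∀ {v ε t t'}, v ∈ L → t ∈ S → t' ∈ S → P.Y.inc v ε t → P.Y.inc v ε t' → t = t'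
  fix : ∀ {v}, v ∈ L → ∀ c, P.g' v (1, c) = (1, c)
  rel : ∀ {v t t'}, v ∈ L → t ∈ S → t' ∈ S → ∀ (i : P.Y.inc v false t) (i' : P.Y.inc v true t')
    (c : P.Y.C v), e t (P.Y.side i c) * k v = k v * e t' (P.Y.side i' c)
  F_e : ∀ {t}, t ∈ S → ∀ w, F (e t w) = q t * P.ofBrick t (P.u' t w) * (q t)⁻¹
  F_k : ∀ {v t t'}, v ∈ L → t ∈ S → t' ∈ S → ∀ (i : P.Y.inc v false t) (i' : P.Y.inc v true t'),
    F (k v) = q t * (P.let' i * (P.let' i')⁻¹) * (q t')⁻¹

namespace RowData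

variable {P : Plan A B T V H} {S : Set T} {L : Set V} {K : Type*} [Group K]
  (R : RowData P S L K)

/-- walks in the row and their values in `K` -/
inductive Walk : T → T → K → Prop
  | nil {t : T} (w : P.X.W t) : t ∈ S → Walk t t (R.e t w)
  | cons {t₀ : T} {v : V} {δ : Bool} {t t' : T} {a : K} (w : P.X.W t₀) : v ∈ L → t₀ ∈ S →
      P.X.inc v (!δ) t₀ → P.X.inc v δ t → Walk t t' a →
      Walk t₀ t' (R.e t₀ w * lt (R.k v) δ * a)

variable {R}

theorem Walk.left_mem {t t' : T} {a : K} (h : R.Walk t t' a) : t ∈ S := by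
  cases h <;> assumption

theorem Walk.right_mem {t t' : T} {a : K} (h : R.Walk t t' a) : t' ∈ S := by
  induction h <;> assumption

/-- multiplication from the left with an element of a brick -/
theorem Walk.mul_left {t t' : T} {a : K} (h : R.Walk t t' a) (w : P.X.W t) :
    R.Walk t t' (R.e t w * a) := by
  cases h with
  | nil w' ht =>
    rw [← map_mul]
    exact .nil _ ht
  | @cons _ v δ t₁ _ a w' hv ht i i' h =>
    have h1 : R.e t w * (R.e t w' * lt (R.k v) δ * a) = R.e t (w * w') * lt (R.k v) δ * a := by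
      rw [map_mul]; group
    rw [h1]
    exact .cons _ hv ht i i' h

theorem Walk.trans {t t' t'' : T} {a b : K} (h : R.Walk t t' a) (h' : R.Walk t' t'' b) :
    R.Walk t t'' (a * b) := by
  induction h with
  | nil w ht => exact h'.mul_left w
  | @cons t₀ v δ t t' a w hv ht i i' _ ih =>
    rw [mul_assoc]
    exact .cons _ hv ht i i' (ih h')

theorem Walk.symm {t t' : T} {a : K} (h : R.Walk t t' a) : R.Walk t' t a⁻¹ := by
  induction h with
  | nil w ht =>
    rw [← map_inv]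
    exact .nil _ ht
  | @cons t₀ v δ t t' a w hv ht i i' h ih =>
    have h2 : R.Walk t t₀ (R.e t 1 * lt (R.k v) (!δ) * R.e t₀ w⁻¹) :=
      .cons _ hv h.left_mem (by rw [Bool.not_not]; exact i') i (.nil _ ht)
    have h3 : (R.e t₀ w * lt (R.k v) δ * a)⁻¹ =
        a⁻¹ * (R.e t 1 * lt (R.k v) (!δ) * R.e t₀ w⁻¹) := by
      rw [map_one, map_inv, one_mul]
      cases δ
      · simp only [lt_false, Bool.not_false, lt_true]; group
      · simp only [lt_true, Bool.not_true, lt_false]; group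
    rw [h3]
    exact ih.trans h2

/-- **Generation**: if `K` is generated by the groups of the bricks of the row and the letters of the
walls, and all bricks are connected with the brick `t₀` by walks of value `1`, then every element of
`K` is the value of a closed walk at `t₀`. -/
theorem walk_of_gen {t₀ : T} (hconn : ∀ t ∈ S, R.Walk t₀ t 1)
    (hinc : ∀ v ∈ L, ∃ t ∈ S, ∃ t' ∈ S, P.X.inc v false t ∧ P.X.inc v true t')
    (hgen : Subgroup.closure ({a | ∃ t ∈ S, ∃ w, a = R.e t w} ∪ {a | ∃ v ∈ L, a = R.k v}) = ⊤)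
    (ht₀ : t₀ ∈ S) (a : K) : R.Walk t₀ t₀ a := by
  have h1 : a ∈ Subgroup.closure ({a | ∃ t ∈ S, ∃ w, a = R.e t w} ∪ {a | ∃ v ∈ L, a = R.k v}) := by
    rw [hgen]; exact Subgroup.mem_top a
  induction h1 using Subgroup.closure_induction with
  | mem x hx =>
    rcases hx with ⟨t, ht, w, rfl⟩ | ⟨v, hv, rfl⟩
    · have h2 := (hconn t ht).trans ((Walk.nil (R := R) w ht).trans (hconn t ht).symm)
      rwa [inv_one, mul_one, one_mul] at h2
    · obtain ⟨t, ht, t', ht', i, i'⟩ := hinc v hv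
      have h3 : R.Walk t t' (R.e t 1 * lt (R.k v) true * R.e t' 1) :=
        .cons (δ := true) _ hv ht i i' (.nil _ ht')
      have h2 := (hconn t ht).trans (h3.trans (hconn t' ht').symm)
      simpa using h2
  | one =>
    have h2 := Walk.nil (R := R) (1 : P.X.W t₀) ht₀
    rwa [map_one] at h2
  | mul x y _ _ hx hy => exact hx.trans hy
  | inv x _ hx => exact hx.symm

/-- reduced paths in the row with their values in `K` -/
inductive Red (R : RowData P S L K) : T → V → Bool → T → K → A → P.Grp → Prop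
  | one {t₀ : T} {v : V} {δ : Bool} {t : T} (hv : v ∈ L) (ht₀ : t₀ ∈ S) (ht : t ∈ S)
      (i₀ : P.X.inc v (!δ) t₀) (i : P.X.inc v δ t) (w : P.X.W t) :
      Red R t₀ v δ t (lt (R.k v) δ * R.e t w) (lt (P.X.s v) δ * (w : A))
        (P.let_ i₀ * (P.let_ i)⁻¹ * P.ofBrick t (P.u t w))
  | cons {t₀ : T} {v : V} {δ : Bool} {t : T} (hv : v ∈ L) (ht₀ : t₀ ∈ S) (ht : t ∈ S)
      (i₀ : P.X.inc v (!δ) t₀) (i : P.X.inc v δ t)
      (w : P.X.W t) {v' : V} {δ' : Bool} {t' : T} {a : K} {x : A} {g : P.Grp} :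
      ¬ (v' = v ∧ δ' = !δ ∧ ∃ c ∈ P.X.C v, (w : A) = sd (P.X.s v) δ c) →
      Red R t v' δ' t' a x g →
      Red R t₀ v δ t' (lt (R.k v) δ * R.e t w * a) (lt (P.X.s v) δ * (w : A) * x)
        (P.let_ i₀ * (P.let_ i)⁻¹ * P.ofBrick t (P.u t w) * g)

theorem Red.row {t₀ : T} {v : V} {δ : Bool} {t : T} {a : K} {x : A} {g : P.Grp}
    (h : Red R t₀ v δ t a x g) : P.Row t₀ v δ t x g := by
  induction h with
  | one hv ht₀ ht i₀ i w => exact .one i₀ i w
  | cons hv ht₀ ht i₀ i w hn _ ih => exact .cons i₀ i w hn ih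

/-- crossing a wall in the group `K` -/
theorem F_lt {v : V} (hv : v ∈ L) {δ : Bool} {t t' : T} (ht : t ∈ S) (ht' : t' ∈ S)
    (i : P.X.inc v (!δ) t) (i' : P.X.inc v δ t') :
    R.F (lt (R.k v) δ) = R.q t * (P.let_ i * (P.let_ i')⁻¹) * (R.q t')⁻¹ := by
  cases δ
  · rw [lt_false, map_inv, R.F_k hv ht' ht i' i]
    group
  · exact R.F_k hv ht ht' i i'

theorem Red.F_eq {t₀ : T} {v : V} {δ : Bool} {t : T} {a : K} {x : A} {g : P.Grp}
    (h : Red R t₀ v δ t a x g) : R.F a = R.q t₀ * g * (R.q t)⁻¹ := by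
  induction h with
  | one hv ht₀ ht i₀ i w =>
    rw [map_mul, F_lt hv ht₀ ht i₀ i, R.F_e ht]
    group
  | cons hv ht₀ ht i₀ i w hn _ ih =>
    rw [map_mul, map_mul, F_lt hv ht₀ ht i₀ i, R.F_e ht, ih]
    group

theorem rel_lt {v : V} (hv : v ∈ L) {δ : Bool} {t t' : T} (ht : t ∈ S) (ht' : t' ∈ S)
    (i : P.X.inc v (!δ) t) (i' : P.X.inc v δ t') (c : P.X.C v) :
    R.e t (P.X.side i c) * lt (R.k v) δ = lt (R.k v) δ * R.e t' (P.X.side i' c) := by
  cases δ
  · rw [lt_false, eq_inv_mul_iff_mul_eq, ← mul_assoc, mul_inv_eq_iff_eq_mul]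
    exact (R.rel hv ht' ht i' i c).symm
  · exact R.rel hv ht ht' i i' c

/-- **Reduction**: the value of a walk is an element of a brick or such an element times the value of
a reduced path. -/
theorem Walk.reduce {t₀ t : T} {a : K} (h : R.Walk t₀ t a) :
    (t₀ = t ∧ ∃ w, a = R.e t₀ w) ∨
      ∃ (w : P.X.W t₀) (v : V) (δ : Bool) (b : K) (x : A) (g : P.Grp), Red R t₀ v δ t b x g ∧
        a = R.e t₀ w * b := by
  induction h with
  | @nil t w ht => exact Or.inl ⟨rfl, w, rfl⟩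
  | @cons t₀ v δ t t' a w hv ht₀ i i' h ih =>
    rcases ih with ⟨rfl, w', rfl⟩ | ⟨w', v', δ', b, x, g, h1, rfl⟩
    · exact Or.inr ⟨w, v, δ, _, _, _, .one hv ht₀ h.right_mem i i' w', by rw [mul_assoc]⟩
    · by_cases hn : v' = v ∧ δ' = !δ ∧ ∃ c ∈ P.X.C v, (w' : A) = sd (P.X.s v) δ c
      · obtain ⟨rfl, rfl, c, hc, hw'⟩ := hn
        obtain rfl : w' = P.X.side i' ⟨c, hc⟩ := Subtype.ext hw'
        have h2 : R.e t₀ w * lt (R.k v') δ * (R.e t (P.X.side i' ⟨c, hc⟩) * (lt (R.k v') (!δ))) =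
            R.e t₀ (w * P.X.side i ⟨c, hc⟩) := by
          rw [mul_assoc, ← mul_assoc (lt (R.k v') δ), ← rel_lt hv ht₀ h.left_mem i i',
            map_mul, mul_assoc, lt_mul_lt_not, mul_one]
        cases h1 with
        | one hv₁ ht₁ ht₂ j₀ j w₂ =>
          obtain rfl := R.uniq hv ht₀ ht₂ i j
          refine Or.inl ⟨rfl, w * P.X.side i ⟨c, hc⟩ * w₂, ?_⟩
          rw [map_mul (R.e t₀) (w * _), ← h2]
          group
        | @cons _ _ _ t₁ hv₁ ht₁ ht₂ j₀ j w₂ v₂ δ₂ _ b' x' g' hn' h' =>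
          obtain rfl := R.uniq hv ht₀ ht₂ i j
          refine Or.inr ⟨w * P.X.side i ⟨c, hc⟩ * w₂, _, _, _, _, _, h', ?_⟩
          rw [map_mul (R.e t₀) (w * _), ← h2]
          group
      · exact Or.inr ⟨w, v, δ, _, _, _, .cons hv ht₀ h.left_mem i i' w' hn h1, by group⟩

/-- elements which are values of closed walks at the base brick `t₀` (`q t₀ = 1`) satisfy the
hypothesis of `Plan.inv_of_row_col` -/
theorem Walk.spec {t₀ : T} {a : K} (h : R.Walk t₀ t₀ a) (hq : R.q t₀ = 1) :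
    (∃ w : P.X.W t₀, R.F a = P.ofBrick t₀ (P.u t₀ w) ∧ (w = 1 → a = 1)) ∨
      ∃ (w : P.X.W t₀) (v : V) (δ : Bool) (x : A) (γ : P.Grp), P.Row t₀ v δ t₀ x γ ∧
        R.F a = P.ofBrick t₀ (P.u t₀ w) * γ := by
  rcases h.reduce with ⟨-, w, rfl⟩ | ⟨w, v, δ, b, x, g, h1, rfl⟩
  · refine Or.inl ⟨w, ?_, ?_⟩
    · rw [R.F_e h.left_mem, hq, one_mul, inv_one, mul_one]
    · rintro rfl
      rw [map_one]
  · refine Or.inr ⟨w, v, δ, x, g, h1.row, ?_⟩
    rw [map_mul, R.F_e h.left_mem, h1.F_eq, hq, one_mul, inv_one, mul_one, one_mul, mul_one]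

/-- the homomorphism to the group of the plan is injective -/
theorem F_injective {t₀ : T} (h : ∀ a, R.Walk t₀ t₀ a) (hq : R.q t₀ = 1) : Injective R.F := by
  rw [injective_iff_map_eq_one]
  intro a ha
  rcases (h a).spec hq with ⟨w, h1, h2⟩ | ⟨w, v, δ, x, γ, h1, h2⟩
  · apply h2
    have h3 : P.u t₀ w * P.u' t₀ 1 = 1 := by
      rw [ha] at h1
      rw [map_one, mul_one]
      exact (map_eq_one_iff _ (P.ofBrick_injective t₀)).1 h1.symm
    exact (P.indep _ _ _ h3).1
  · exfalso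
    rw [ha] at h2
    refine h1.ne (P.inB t₀ (P.u t₀ w)) 1 ?_
    rw [← toU_ofBrick, ← map_mul, ← h2, map_one, map_one]

end RowData

namespace ColData

variable {P : Plan A B T V H} {S : Set T} {L : Set H} {K : Type*} [Group K]
  (R : ColData P S L K)

/-- walks in the column and their values in `K` -/
inductive Walk : T → T → K → Prop
  | nil {t : T} (w : P.Y.W t) : t ∈ S → Walk t t (R.e t w)
  | cons {t₀ : T} {v : H} {δ : Bool} {t t' : T} {a : K} (w : P.Y.W t₀) : v ∈ L → t₀ ∈ S →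
      P.Y.inc v (!δ) t₀ → P.Y.inc v δ t → Walk t t' a →
      Walk t₀ t' (R.e t₀ w * lt (R.k v) δ * a)

variable {R}

theorem Walk.left_mem {t t' : T} {a : K} (h : R.Walk t t' a) : t ∈ S := by
  cases h <;> assumption

theorem Walk.right_mem {t t' : T} {a : K} (h : R.Walk t t' a) : t' ∈ S := by
  induction h <;> assumption

/-- multiplication from the left with an element of a brick -/
theorem Walk.mul_left {t t' : T} {a : K} (h : R.Walk t t' a) (w : P.Y.W t) :
    R.Walk t t' (R.e t w * a) := by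
  cases h with
  | nil w' ht =>
    rw [← map_mul]
    exact .nil _ ht
  | @cons _ v δ t₁ _ a w' hv ht i i' h =>
    have h1 : R.e t w * (R.e t w' * lt (R.k v) δ * a) = R.e t (w * w') * lt (R.k v) δ * a := by
      rw [map_mul]; group
    rw [h1]
    exact .cons _ hv ht i i' h

theorem Walk.trans {t t' t'' : T} {a b : K} (h : R.Walk t t' a) (h' : R.Walk t' t'' b) :
    R.Walk t t'' (a * b) := by
  induction h with
  | nil w ht => exact h'.mul_left w
  | @cons t₀ v δ t t' a w hv ht i i' _ ih =>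
    rw [mul_assoc]
    exact .cons _ hv ht i i' (ih h')

theorem Walk.symm {t t' : T} {a : K} (h : R.Walk t t' a) : R.Walk t' t a⁻¹ := by
  induction h with
  | nil w ht =>
    rw [← map_inv]
    exact .nil _ ht
  | @cons t₀ v δ t t' a w hv ht i i' h ih =>
    have h2 : R.Walk t t₀ (R.e t 1 * lt (R.k v) (!δ) * R.e t₀ w⁻¹) :=
      .cons _ hv h.left_mem (by rw [Bool.not_not]; exact i') i (.nil _ ht)
    have h3 : (R.e t₀ w * lt (R.k v) δ * a)⁻¹ =
        a⁻¹ * (R.e t 1 * lt (R.k v) (!δ) * R.e t₀ w⁻¹) := by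
      rw [map_one, map_inv, one_mul]
      cases δ
      · simp only [lt_false, Bool.not_false, lt_true]; group
      · simp only [lt_true, Bool.not_true, lt_false]; group
    rw [h3]
    exact ih.trans h2

/-- **Generation**: if `K` is generated by the groups of the bricks of the column and the letters of the
walls, and all bricks are connected with the brick `t₀` by walks of value `1`, then every element of
`K` is the value of a closed walk at `t₀`. -/
theorem walk_of_gen {t₀ : T} (hconn : ∀ t ∈ S, R.Walk t₀ t 1)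
    (hinc : ∀ v ∈ L, ∃ t ∈ S, ∃ t' ∈ S, P.Y.inc v false t ∧ P.Y.inc v true t')
    (hgen : Subgroup.closure ({a | ∃ t ∈ S, ∃ w, a = R.e t w} ∪ {a | ∃ v ∈ L, a = R.k v}) = ⊤)
    (ht₀ : t₀ ∈ S) (a : K) : R.Walk t₀ t₀ a := by
  have h1 : a ∈ Subgroup.closure ({a | ∃ t ∈ S, ∃ w, a = R.e t w} ∪ {a | ∃ v ∈ L, a = R.k v}) := by
    rw [hgen]; exact Subgroup.mem_top a
  induction h1 using Subgroup.closure_induction with
  | mem x hx =>
    rcases hx with ⟨t, ht, w, rfl⟩ | ⟨v, hv, rfl⟩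
    · have h2 := (hconn t ht).trans ((Walk.nil (R := R) w ht).trans (hconn t ht).symm)
      rwa [inv_one, mul_one, one_mul] at h2
    · obtain ⟨t, ht, t', ht', i, i'⟩ := hinc v hv
      have h3 : R.Walk t t' (R.e t 1 * lt (R.k v) true * R.e t' 1) :=
        .cons (δ := true) _ hv ht i i' (.nil _ ht')
      have h2 := (hconn t ht).trans (h3.trans (hconn t' ht').symm)
      simpa using h2
  | one =>
    have h2 := Walk.nil (R := R) (1 : P.Y.W t₀) ht₀
    rwa [map_one] at h2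
  | mul x y _ _ hx hy => exact hx.trans hy
  | inv x _ hx => exact hx.symm

/-- reduced paths in the column with their values in `K` -/
inductive Red (R : ColData P S L K) : T → H → Bool → T → K → B → P.Grp → Prop
  | one {t₀ : T} {v : H} {δ : Bool} {t : T} (hv : v ∈ L) (ht₀ : t₀ ∈ S) (ht : t ∈ S)
      (i₀ : P.Y.inc v (!δ) t₀) (i : P.Y.inc v δ t) (w : P.Y.W t) :
      Red R t₀ v δ t (lt (R.k v) δ * R.e t w) (lt (P.Y.s v) δ * (w : B))
        (P.let' i₀ * (P.let' i)⁻¹ * P.ofBrick t (P.u' t w))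
  | cons {t₀ : T} {v : H} {δ : Bool} {t : T} (hv : v ∈ L) (ht₀ : t₀ ∈ S) (ht : t ∈ S)
      (i₀ : P.Y.inc v (!δ) t₀) (i : P.Y.inc v δ t)
      (w : P.Y.W t) {v' : H} {δ' : Bool} {t' : T} {a : K} {x : B} {g : P.Grp} :
      ¬ (v' = v ∧ δ' = !δ ∧ ∃ c ∈ P.Y.C v, (w : B) = sd (P.Y.s v) δ c) →
      Red R t v' δ' t' a x g →
      Red R t₀ v δ t' (lt (R.k v) δ * R.e t w * a) (lt (P.Y.s v) δ * (w : B) * x)
        (P.let' i₀ * (P.let' i)⁻¹ * P.ofBrick t (P.u' t w) * g)

theorem Red.col {t₀ : T} {v : H} {δ : Bool} {t : T} {a : K} {x : B} {g : P.Grp}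
    (h : Red R t₀ v δ t a x g) : P.Col t₀ v δ t x g := by
  induction h with
  | one hv ht₀ ht i₀ i w => exact .one i₀ i w
  | cons hv ht₀ ht i₀ i w hn _ ih => exact .cons i₀ i w hn ih

/-- crossing a wall in the group `K` -/
theorem F_lt {v : H} (hv : v ∈ L) {δ : Bool} {t t' : T} (ht : t ∈ S) (ht' : t' ∈ S)
    (i : P.Y.inc v (!δ) t) (i' : P.Y.inc v δ t') :
    R.F (lt (R.k v) δ) = R.q t * (P.let' i * (P.let' i')⁻¹) * (R.q t')⁻¹ := by
  cases δ
  · rw [lt_false, map_inv, R.F_k hv ht' ht i' i]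
    group
  · exact R.F_k hv ht ht' i i'

theorem Red.F_eq {t₀ : T} {v : H} {δ : Bool} {t : T} {a : K} {x : B} {g : P.Grp}
    (h : Red R t₀ v δ t a x g) : R.F a = R.q t₀ * g * (R.q t)⁻¹ := by
  induction h with
  | one hv ht₀ ht i₀ i w =>
    rw [map_mul, F_lt hv ht₀ ht i₀ i, R.F_e ht]
    group
  | cons hv ht₀ ht i₀ i w hn _ ih =>
    rw [map_mul, map_mul, F_lt hv ht₀ ht i₀ i, R.F_e ht, ih]
    group

theorem rel_lt {v : H} (hv : v ∈ L) {δ : Bool} {t t' : T} (ht : t ∈ S) (ht' : t' ∈ S)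
    (i : P.Y.inc v (!δ) t) (i' : P.Y.inc v δ t') (c : P.Y.C v) :
    R.e t (P.Y.side i c) * lt (R.k v) δ = lt (R.k v) δ * R.e t' (P.Y.side i' c) := by
  cases δ
  · rw [lt_false, eq_inv_mul_iff_mul_eq, ← mul_assoc, mul_inv_eq_iff_eq_mul]
    exact (R.rel hv ht' ht i' i c).symm
  · exact R.rel hv ht ht' i i' c

/-- **Reduction**: the value of a walk is an element of a brick or such an element times the value of
a reduced path. -/
theorem Walk.reduce {t₀ t : T} {a : K} (h : R.Walk t₀ t a) :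
    (t₀ = t ∧ ∃ w, a = R.e t₀ w) ∨
      ∃ (w : P.Y.W t₀) (v : H) (δ : Bool) (b : K) (x : B) (g : P.Grp), Red R t₀ v δ t b x g ∧
        a = R.e t₀ w * b := by
  induction h with
  | @nil t w ht => exact Or.inl ⟨rfl, w, rfl⟩
  | @cons t₀ v δ t t' a w hv ht₀ i i' h ih =>
    rcases ih with ⟨rfl, w', rfl⟩ | ⟨w', v', δ', b, x, g, h1, rfl⟩
    · exact Or.inr ⟨w, v, δ, _, _, _, .one hv ht₀ h.right_mem i i' w', by rw [mul_assoc]⟩
    · by_cases hn : v' = v ∧ δ' = !δ ∧ ∃ c ∈ P.Y.C v, (w' : B) = sd (P.Y.s v) δ c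
      · obtain ⟨rfl, rfl, c, hc, hw'⟩ := hn
        obtain rfl : w' = P.Y.side i' ⟨c, hc⟩ := Subtype.ext hw'
        have h2 : R.e t₀ w * lt (R.k v') δ * (R.e t (P.Y.side i' ⟨c, hc⟩) * (lt (R.k v') (!δ))) =
            R.e t₀ (w * P.Y.side i ⟨c, hc⟩) := by
          rw [mul_assoc, ← mul_assoc (lt (R.k v') δ), ← rel_lt hv ht₀ h.left_mem i i',
            map_mul, mul_assoc, lt_mul_lt_not, mul_one]
        cases h1 with
        | one hv₁ ht₁ ht₂ j₀ j w₂ =>
          obtain rfl := R.uniq hv ht₀ ht₂ i j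
          refine Or.inl ⟨rfl, w * P.Y.side i ⟨c, hc⟩ * w₂, ?_⟩
          rw [map_mul (R.e t₀) (w * _), ← h2]
          group
        | @cons _ _ _ t₁ hv₁ ht₁ ht₂ j₀ j w₂ v₂ δ₂ _ b' x' g' hn' h' =>
          obtain rfl := R.uniq hv ht₀ ht₂ i j
          refine Or.inr ⟨w * P.Y.side i ⟨c, hc⟩ * w₂, _, _, _, _, _, h', ?_⟩
          rw [map_mul (R.e t₀) (w * _), ← h2]
          group
      · exact Or.inr ⟨w, v, δ, _, _, _, .cons hv ht₀ h.left_mem i i' w' hn h1, by group⟩

/-- elements which are values of closed walks at the base brick `t₀` (`q t₀ = 1`) satisfy the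
hypothesis of `Plan.inv_of_row_col` -/
theorem Walk.spec {t₀ : T} {a : K} (h : R.Walk t₀ t₀ a) (hq : R.q t₀ = 1) :
    (∃ w : P.Y.W t₀, R.F a = P.ofBrick t₀ (P.u' t₀ w) ∧ (w = 1 → a = 1)) ∨
      ∃ (w : P.Y.W t₀) (v : H) (δ : Bool) (x : B) (γ : P.Grp), P.Col t₀ v δ t₀ x γ ∧
        R.F a = P.ofBrick t₀ (P.u' t₀ w) * γ := by
  rcases h.reduce with ⟨-, w, rfl⟩ | ⟨w, v, δ, b, x, g, h1, rfl⟩
  · refine Or.inl ⟨w, ?_, ?_⟩
    · rw [R.F_e h.left_mem, hq, one_mul, inv_one, mul_one]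
    · rintro rfl
      rw [map_one]
  · refine Or.inr ⟨w, v, δ, x, g, h1.col, ?_⟩
    rw [map_mul, R.F_e h.left_mem, h1.F_eq, hq, one_mul, inv_one, mul_one, one_mul, mul_one]

/-- the homomorphism to the group of the plan is injective -/
theorem F_injective {t₀ : T} (h : ∀ a, R.Walk t₀ t₀ a) (hq : R.q t₀ = 1) : Injective R.F := by
  rw [injective_iff_map_eq_one]
  intro a ha
  rcases (h a).spec hq with ⟨w, h1, h2⟩ | ⟨w, v, δ, x, γ, h1, h2⟩
  · apply h2
    have h3 : P.u t₀ 1 * P.u' t₀ w = 1 := by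
      rw [ha] at h1
      rw [map_one, one_mul]
      exact (map_eq_one_iff _ (P.ofBrick_injective t₀)).1 h1.symm
    exact (P.indep _ _ _ h3).2
  · exfalso
    rw [ha] at h2
    refine h1.ne (P.inB t₀ (P.u' t₀ w)) 1 ?_
    rw [← toU_ofBrick, ← map_mul, ← h2, map_one, map_one]

end ColData

namespace Plan

variable {P : Plan A B T V H}

/-- **Rows and columns through a brick are independent**: groups over a row and over a column
through the brick `t₀` inject, as a set, into every group over the group of the plan. -/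
theorem inv_of_data {S : Set T} {L : Set V} {S' : Set T} {L' : Set H} {K K' M : Type*} [Group K]
    [Group K'] [Group M] (R : RowData P S L K) (C : ColData P S' L' K') {t₀ : T}
    (hR : ∀ a, R.Walk t₀ t₀ a) (hC : ∀ b, C.Walk t₀ t₀ b) (hq : R.q t₀ = 1) (hq' : C.q t₀ = 1)
    (φ : M →* P.Grp) (f : K →* M) (g : K' →* M) (hf : ∀ a, φ (f a) = R.F a)
    (hg : ∀ b, φ (g b) = C.F b) : Pool.GSG.INV f g := by
  refine inv_of_row_col φ f g t₀ (fun a => ?_) (fun b => ?_)
  · rw [hf]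
    exact (hR a).spec hq
  · rw [hg]
    exact (hC b).spec hq'

end Plan

end Pool.TPL
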