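import Pool.Agent.Lib.TPL.Def
import Pool.Agent.Lib.GSE.Side
import Pool.Agent.Lib.GSC.Bridge

/-!
# Graphs of groups in a group: how to verify `Net.Tree`

`Tree.empty`, `Tree.mono`, `Tree.comap` : formal rules.
`Tree.of_side` : the values of reduced paths are read off in a multiple HNN extension (any base
group `W`, for instance the product of the vertex groups) with the help of elements `p t` (the
values of paths from a base vertex to the vertices `t`).
-/

namespace Pool.TPL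

open Pool.GS Pool.GSE Function

namespace Net

variable {A T V : Type} [Group A] {X : Net A T V}

theorem Path.mono {S S' : Set T} {L L' : Set V} (hS : S ⊆ S') (hL : L ⊆ L') {v : V} {δ : Bool}
    {t : T} {x : A} (h : X.Path S L v δ t x) : X.Path S' L' v δ t x := by
  induction h with
  | one h1 h2 h3 h4 => exact .one (hL h1) (hS h2) h3 h4
  | cons h1 h2 h3 h4 h5 h6 _ ih => exact .cons (hL h1) (hS h2) h3 h4 h5 h6 ih

theorem Path.left_mem {S : Set T} {L : Set V} {v : V} {δ : Bool} {t : T} {x : A}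
    (h : X.Path S L v δ t x) : v ∈ L := by
  cases h with
  | one h1 => exact h1
  | cons h1 => exact h1

theorem Path.end_mem {S : Set T} {L : Set V} {v : V} {δ : Bool} {t : T} {x : A}
    (h : X.Path S L v δ t x) : t ∈ S := by
  induction h with
  | one _ h2 => exact h2
  | cons _ _ _ _ _ _ _ ih => exact ih

/-- no edges: only the vertex groups have to be considered -/
theorem Tree.empty {S : Set T} {L : Set V} {E : Subgroup A} (hL : ∀ v, v ∉ L)
    (h : ∀ t ∈ S, X.W t ≤ E) : X.Tree S L E where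
  vert := h
  edge v hv := (hL v hv).elim
  red h _ := (hL _ h.left_mem).elim

/-- a smaller graph of groups -/
theorem Tree.mono {S S' : Set T} {L L' : Set V} {E E' : Subgroup A} (h : X.Tree S' L' E')
    (hS : S ⊆ S') (hL : L ⊆ L') (hv : ∀ t ∈ S, X.W t ≤ E) (he : ∀ v ∈ L, X.s v ∈ E) :
    X.Tree S L E where
  vert := hv
  edge := he
  red k i := h.red (k.mono hS hL) i

/-- **Comparison with a multiple HNN extension.**  `Y` is a model of a multiple HNN extension of a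
group `K` (for instance the product of the vertex groups, or one vertex group), `j t` maps the
vertex groups to `K`, `ρ` maps `E` to the multiple HNN extension such that `w` in `W t` goes to
`p t * inc (j t w) * (p t)⁻¹` and the element `s v` to `p t * s v * (p t')⁻¹` (`t`, `t'` the vertices
at the ends of `v`), and an element of a vertex group lies in an edge group if its image does. -/
theorem Tree.of_side {I K U : Type*} [Group K] [Group U] (Y : Side K I U) {S : Set T} {L : Set V}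
    {E : Subgroup A} (hvert : ∀ t ∈ S, X.W t ≤ E) (hedge : ∀ v ∈ L, X.s v ∈ E) (ι : V → I)
    (hι : ∀ v ∈ L, ∀ v' ∈ L, ι v = ι v' → v = v') (j : ∀ t, X.W t →* K) (p : T → U) (ρ : E →* U)
    (hρ : ∀ t (ht : t ∈ S) (w : X.W t),
      ρ ⟨w, hvert t ht w.2⟩ = p t * Y.inc (j t w) * (p t)⁻¹)
    (hs : ∀ v (hv : v ∈ L) t t', t ∈ S → t' ∈ S → X.inc v false t → X.inc v true t' →
      ρ ⟨X.s v, hedge v hv⟩ = p t * Y.s (ι v) * (p t')⁻¹)
    (hC : ∀ v ∈ L, ∀ t ∈ S, X.inc v false t → ∀ w : X.W t, j t w ∈ Y.C (ι v) → (w : A) ∈ X.C v)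
    (hD : ∀ v ∈ L, ∀ t ∈ S, X.inc v true t → ∀ w : X.W t, j t w ∈ Y.D (ι v) →
      X.s v * w * (X.s v)⁻¹ ∈ X.C v) : X.Tree S L E := by
  have hlet : ∀ v (hv : v ∈ L) δ t0 t, t0 ∈ S → t ∈ S → X.inc v (!δ) t0 → X.inc v δ t →
      ∃ h : lt (X.s v) δ ∈ E, ρ ⟨lt (X.s v) δ, h⟩ = p t0 * Y.letter (ι v, δ) * (p t)⁻¹ := by
    intro v hv δ t0 t h0 h1 i0 i1
    cases δ
    · refine ⟨inv_mem (hedge v hv), ?_⟩
      have h2 : (⟨lt (X.s v) false, inv_mem (hedge v hv)⟩ : E) = (⟨X.s v, hedge v hv⟩ : E)⁻¹ := rfl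
      rw [h2, map_inv, hs v hv t t0 h1 h0 i1 i0]
      simp only [Side.letter, Bool.false_eq_true, if_false]
      group
    · exact ⟨hedge v hv, hs v hv t0 t h0 h1 i0 i1⟩
  have key : ∀ {v δ t x}, X.Path S L v δ t x → ∀ t0 ∈ S, X.inc v (!δ) t0 →
      ∃ hx : x ∈ E, ∃ y, Y.RP (ι v, δ) y ∧ ρ ⟨x, hx⟩ = p t0 * y * (p t)⁻¹ := by
    intro v δ t x h
    induction h with
    | @one v δ t w h1 h2 h3 h4 =>
      intro t0 h0 i0
      obtain ⟨h5, h6⟩ := hlet v h1 δ t0 t h0 h2 i0 h3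
      refine ⟨mul_mem h5 (hvert t h2 h4), _, Side.RP.single (ι v, δ) (j t ⟨w, h4⟩), ?_⟩
      have h7 : (⟨lt (X.s v) δ * w, mul_mem h5 (hvert t h2 h4)⟩ : E) =
        ⟨lt (X.s v) δ, h5⟩ * ⟨w, hvert t h2 h4⟩ := rfl
      rw [h7, map_mul, h6, hρ t h2 ⟨w, h4⟩]
      group
    | @cons v δ t w v' δ' t' x h1 h2 h3 h4 h5 h6 h7 ih =>
      intro t0 h0 i0
      obtain ⟨h8, h9⟩ := hlet v h1 δ t0 t h0 h2 i0 h3
      obtain ⟨hx, y, hy, h10⟩ := ih t h2 h5
      refine ⟨mul_mem (mul_mem h8 (hvert t h2 h4)) hx, _,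
        Side.RP.cons (e := (ι v, δ)) (w := j t ⟨w, h4⟩) ?_ hy, ?_⟩
      · rintro ⟨h11, k, h12⟩
        rw [Prod.mk.injEq] at h11
        refine h6 ⟨hι _ h7.left_mem _ h1 h11.1, h11.2, ?_⟩
        cases δ
        · rw [hsys_L_false_iff] at h12
          obtain ⟨c, h13, -⟩ := h12
          exact ⟨w, hC v h1 t h2 h3 ⟨w, h4⟩ (by rw [h13]; exact c.2), rfl⟩
        · rw [hsys_L_true_iff] at h12
          obtain ⟨c, -, h13⟩ := h12
          refine ⟨_, hD v h1 t h2 h3 ⟨w, h4⟩ (by rw [h13]; exact (Y.φ (ι v) c).2), ?_⟩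
          change w = (X.s v)⁻¹ * (X.s v * w * (X.s v)⁻¹) * X.s v
          group
      · have h11 : (⟨lt (X.s v) δ * w * x, mul_mem (mul_mem h8 (hvert t h2 h4)) hx⟩ : E) =
          ⟨lt (X.s v) δ, h8⟩ * ⟨w, hvert t h2 h4⟩ * ⟨x, hx⟩ := rfl
        rw [h11, map_mul, map_mul, h9, hρ t h2 ⟨w, h4⟩, h10]
        group
  refine ⟨hvert, hedge, fun {v δ t x} h i hx => ?_⟩
  obtain ⟨hx', y, hy, h1⟩ := key h t h.end_mem i
  apply hy.ne_one
  have h2 : (⟨x, hx'⟩ : E) = 1 := Subtype.ext hx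
  rw [h2, map_one] at h1
  have h3 : p t * y * (p t)⁻¹ = p t * 1 * (p t)⁻¹ := by rw [← h1]; group
  exact mul_left_cancel (mul_right_cancel h3)

/-- **Comparison of two graphs of groups** (locally injective morphisms).  `τ`, `ι` map the vertices
and the edges, `ρ` maps `E` to `A'` such that `w` in `W t` goes to `p t * j t w * (p t)⁻¹` and `s v`
to `p t * s (ι v) * (p t')⁻¹`, and an element of a vertex group lies in an edge group if its image
does. -/
theorem Tree.comap {A' T' V' : Type} [Group A'] {X' : Net A' T' V'} {S : Set T} {L : Set V}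
    {E : Subgroup A} {S' : Set T'} {L' : Set V'} {E' : Subgroup A'} (h' : X'.Tree S' L' E')
    (hvert : ∀ t ∈ S, X.W t ≤ E) (hedge : ∀ v ∈ L, X.s v ∈ E) (τ : T → T') (ι : V → V')
    (hτ : ∀ t ∈ S, τ t ∈ S') (hι : ∀ v ∈ L, ι v ∈ L')
    (hinj : ∀ v ∈ L, ∀ v' ∈ L, ι v = ι v' → v = v')
    (hinc : ∀ v ∈ L, ∀ ε, ∀ t ∈ S, X.inc v ε t → X'.inc (ι v) ε (τ t))
    (j : ∀ t, X.W t → A') (hj : ∀ t ∈ S, ∀ w, j t w ∈ X'.W (τ t)) (p : T → A') (ρ : E →* A')
    (hρ : ∀ t (ht : t ∈ S) (w : X.W t), ρ ⟨w, hvert t ht w.2⟩ = p t * j t w * (p t)⁻¹)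
    (hs : ∀ v (hv : v ∈ L) t t', t ∈ S → t' ∈ S → X.inc v false t → X.inc v true t' →
      ρ ⟨X.s v, hedge v hv⟩ = p t * X'.s (ι v) * (p t')⁻¹)
    (hC : ∀ v ∈ L, ∀ ε, ∀ t ∈ S, X.inc v ε t → ∀ w : X.W t,
      (∃ c ∈ X'.C (ι v), j t w = sd (X'.s (ι v)) ε c) → ∃ c ∈ X.C v, (w : A) = sd (X.s v) ε c) :
    X.Tree S L E := by
  have hlet : ∀ v (hv : v ∈ L) δ t0 t, t0 ∈ S → t ∈ S → X.inc v (!δ) t0 → X.inc v δ t →
      ∃ h : lt (X.s v) δ ∈ E, ρ ⟨lt (X.s v) δ, h⟩ = p t0 * lt (X'.s (ι v)) δ * (p t)⁻¹ := by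
    intro v hv δ t0 t h0 h1 i0 i1
    cases δ
    · refine ⟨inv_mem (hedge v hv), ?_⟩
      have h2 : (⟨lt (X.s v) false, inv_mem (hedge v hv)⟩ : E) = (⟨X.s v, hedge v hv⟩ : E)⁻¹ := rfl
      rw [h2, map_inv, hs v hv t t0 h1 h0 i1 i0]
      simp only [lt, Bool.false_eq_true, if_false]
      group
    · exact ⟨hedge v hv, hs v hv t0 t h0 h1 i0 i1⟩
  have key : ∀ {v δ t x}, X.Path S L v δ t x → ∀ t0 ∈ S, X.inc v (!δ) t0 →
      ∃ hx : x ∈ E, ∃ y, X'.Path S' L' (ι v) δ (τ t) y ∧ ρ ⟨x, hx⟩ = p t0 * y * (p t)⁻¹ := by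
    intro v δ t x h
    induction h with
    | @one v δ t w h1 h2 h3 h4 =>
      intro t0 h0 i0
      obtain ⟨h5, h6⟩ := hlet v h1 δ t0 t h0 h2 i0 h3
      refine ⟨mul_mem h5 (hvert t h2 h4), _, Path.one (hι v h1) (hτ t h2) (hinc v h1 δ t h2 h3)
        (hj t h2 ⟨w, h4⟩), ?_⟩
      have h7 : (⟨lt (X.s v) δ * w, mul_mem h5 (hvert t h2 h4)⟩ : E) =
        ⟨lt (X.s v) δ, h5⟩ * ⟨w, hvert t h2 h4⟩ := rfl
      rw [h7, map_mul, h6, hρ t h2 ⟨w, h4⟩]
      group
    | @cons v δ t w v' δ' t' x h1 h2 h3 h4 h5 h6 h7 ih =>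
      intro t0 h0 i0
      obtain ⟨h8, h9⟩ := hlet v h1 δ t0 t h0 h2 i0 h3
      obtain ⟨hx, y, hy, h10⟩ := ih t h2 h5
      refine ⟨mul_mem (mul_mem h8 (hvert t h2 h4)) hx, _, Path.cons (hι v h1) (hτ t h2)
        (hinc v h1 δ t h2 h3) (hj t h2 ⟨w, h4⟩) (hinc _ h7.left_mem _ t h2 h5) ?_ hy, ?_⟩
      · rintro ⟨h11, h12, h13⟩
        exact h6 ⟨hinj _ h7.left_mem _ h1 h11, h12, hC v h1 δ t h2 h3 ⟨w, h4⟩ h13⟩
      · have h11 : (⟨lt (X.s v) δ * w * x, mul_mem (mul_mem h8 (hvert t h2 h4)) hx⟩ : E) =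
          ⟨lt (X.s v) δ, h8⟩ * ⟨w, hvert t h2 h4⟩ * ⟨x, hx⟩ := rfl
        rw [h11, map_mul, map_mul, h9, hρ t h2 ⟨w, h4⟩, h10]
        group
  refine ⟨hvert, hedge, fun {v δ t x} h i hx => ?_⟩
  obtain ⟨hx', y, hy, h1⟩ := key h t h.end_mem i
  refine h'.red hy (hinc v h.left_mem _ t h.end_mem i) ?_
  have h2 : (⟨x, hx'⟩ : E) = 1 := Subtype.ext hx
  rw [h2, map_one] at h1
  have h3 : p t * y * (p t)⁻¹ = p t * 1 * (p t)⁻¹ := by rw [← h1]; group
  exact mul_left_cancel (mul_right_cancel h3)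

/-- a multiple HNN extension as a model of itself -/
noncomputable def mside {W I : Type*} [Group W] (C D : I → Subgroup W) (φ : ∀ i, C i ≃* D i) :
    Side W I (M C D φ) where
  C := C
  D := D
  φ := φ
  inc := M.of C D φ
  s := M.st C D φ
  rel := M.rel C D φ
  bij := by
    have h : M.lift C D φ (M.of C D φ) (M.st C D φ) (M.rel C D φ) = MonoidHom.id _ := by
      refine M.hom_ext (fun w => ?_) (fun i => ?_)
      · rw [M.lift_of]; rfl
      · rw [M.lift_st]; rfl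
    rw [h]
    exact bijective_id

/-- **One vertex**: multiple HNN extensions. -/
theorem Tree.hnn {I U : Type*} [Group U] {t : T} (Y : Side (X.W t) I U) {L : Set V}
    {E : Subgroup A} (hvert : X.W t ≤ E) (hedge : ∀ v ∈ L, X.s v ∈ E) (ι : V → I)
    (hι : ∀ v ∈ L, ∀ v' ∈ L, ι v = ι v' → v = v') (ρ : E →* U)
    (hρ : ∀ w : X.W t, ρ ⟨w, hvert w.2⟩ = Y.inc w)
    (hs : ∀ v (hv : v ∈ L), ρ ⟨X.s v, hedge v hv⟩ = Y.s (ι v))
    (hC : ∀ v ∈ L, ∀ w ∈ Y.C (ι v), (w : A) ∈ X.C v)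
    (hD : ∀ v ∈ L, ∀ w ∈ Y.D (ι v), X.s v * w * (X.s v)⁻¹ ∈ X.C v) : X.Tree {t} L E := by
  classical
  refine Tree.of_side (S := {t}) Y (E := E) (fun t' h => by rw [Set.mem_singleton_iff.1 h]; exact hvert)
    hedge ι hι (fun t' => if h : t' = t then Subgroup.inclusion (by rw [h]) else 1) (fun _ => 1) ρ
    ?_ ?_ ?_ ?_
  · intro t' ht w
    obtain rfl : t' = t := ht
    rw [one_mul, inv_one, mul_one, dif_pos rfl]
    exact hρ w
  · intro v hv t' t'' _ _ _ _
    rw [one_mul, inv_one, mul_one]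
    exact hs v hv
  · intro v hv t' ht _ w hw
    obtain rfl : t' = t := ht
    rw [dif_pos rfl] at hw
    exact hC v hv _ hw
  · intro v hv t' ht _ w hw
    obtain rfl : t' = t := ht
    rw [dif_pos rfl] at hw
    exact hD v hv _ hw

section Am

variable {C0 : Type*} {F : Bool → Type*} [Group C0] [∀ i, Group (F i)] {κ : ∀ i, C0 →* F i}

/-- the edge groups in the direct product -/
theorem inl_inj (hκ : ∀ i, Injective (κ i)) :
    Injective ((MonoidHom.inl (F false) (F true)).comp (κ false)) := fun a b h =>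
  hκ false (congrArg Prod.fst h)

theorem inr_inj (hκ : ∀ i, Injective (κ i)) :
    Injective ((MonoidHom.inr (F false) (F true)).comp (κ true)) := fun a b h =>
  hκ true (congrArg Prod.snd h)

/-- the HNN extension of the direct product, in which the amalgamated product is a subgroup -/
noncomputable def amSide (hκ : ∀ i, Injective (κ i)) := mside (W := F false × F true) (I := Unit)
  (fun _ => ((MonoidHom.inl (F false) (F true)).comp (κ false)).range)
  (fun _ => ((MonoidHom.inr (F false) (F true)).comp (κ true)).range)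
  (fun _ => (MonoidHom.ofInjective (inl_inj hκ)).symm.trans (MonoidHom.ofInjective (inr_inj hκ)))

theorem amSide_rel (hκ : ∀ i, Injective (κ i)) (c : C0) :
    ((amSide hκ).s ())⁻¹ * (amSide hκ).inc (κ false c, 1) * (amSide hκ).s () =
      (amSide hκ).inc (1, κ true c) := by
  have h1 := (amSide hκ).rel () (MonoidHom.ofInjective (inl_inj hκ) c)
  have h2 : (amSide hκ).φ () (MonoidHom.ofInjective (inl_inj hκ) c) =
      MonoidHom.ofInjective (inr_inj hκ) c := by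
    change ((MonoidHom.ofInjective (inl_inj hκ)).symm.trans (MonoidHom.ofInjective (inr_inj hκ)))
      (MonoidHom.ofInjective (inl_inj hκ) c) = _
    rw [MulEquiv.trans_apply, MulEquiv.symm_apply_apply]
  rw [h2] at h1
  exact h1

/-- the amalgamated product in the HNN extension -/
noncomputable def amHom (hκ : ∀ i, Injective (κ i)) : Monoid.PushoutI κ →*
    M (W := F false × F true) (I := Unit)
      (fun _ => ((MonoidHom.inl (F false) (F true)).comp (κ false)).range)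
      (fun _ => ((MonoidHom.inr (F false) (F true)).comp (κ true)).range)
      (fun _ => (MonoidHom.ofInjective (inl_inj hκ)).symm.trans
        (MonoidHom.ofInjective (inr_inj hκ))) :=
  Monoid.PushoutI.lift (fun i => match i with
    | false => (amSide hκ).inc.comp (MonoidHom.inl _ _)
    | true => (MulAut.conj ((amSide hκ).s ())).toMonoidHom.comp
        ((amSide hκ).inc.comp (MonoidHom.inr _ _)))
    ((amSide hκ).inc.comp ((MonoidHom.inl _ _).comp (κ false))) (by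
      intro i
      refine MonoidHom.ext fun c => ?_
      cases i
      · rfl
      · change (amSide hκ).s () * (amSide hκ).inc (1, κ true c) * ((amSide hκ).s ())⁻¹ =
          (amSide hκ).inc (κ false c, 1)
        rw [← amSide_rel hκ]
        group)

theorem amHom_false (hκ : ∀ i, Injective (κ i)) (w : F false) :
    amHom hκ (Monoid.PushoutI.of false w) = (amSide hκ).inc (w, 1) := by
  rw [amHom, Monoid.PushoutI.lift_of]
  rfl

theorem amHom_true (hκ : ∀ i, Injective (κ i)) (w : F true) :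
    amHom hκ (Monoid.PushoutI.of true w) =
      (amSide hκ).s () * (amSide hκ).inc (1, w) * ((amSide hκ).s ())⁻¹ := by
  rw [amHom, Monoid.PushoutI.lift_of]
  rfl

/-- **Two vertices, one edge**: amalgamated products. -/
theorem Tree.am (hκ : ∀ i, Injective (κ i)) {t0 t1 : T} (h01 : t0 ≠ t1) {v : V}
    (n0 : ¬ X.inc v true t0) (n1 : ¬ X.inc v false t1) {E : Subgroup A} (hv0 : X.W t0 ≤ E)
    (hv1 : X.W t1 ≤ E) (hs : X.s v ∈ E) (j0 : X.W t0 →* F false) (j1 : X.W t1 →* F true)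
    (ρ : E →* Monoid.PushoutI κ)
    (h0 : ∀ w : X.W t0, ρ ⟨w, hv0 w.2⟩ = Monoid.PushoutI.of false (j0 w))
    (h1 : ∀ w : X.W t1, ρ ⟨X.s v, hs⟩ * ρ ⟨w, hv1 w.2⟩ * (ρ ⟨X.s v, hs⟩)⁻¹ =
      Monoid.PushoutI.of true (j1 w))
    (hC : ∀ w : X.W t0, j0 w ∈ (κ false).range → (w : A) ∈ X.C v)
    (hD : ∀ w : X.W t1, j1 w ∈ (κ true).range → X.s v * w * (X.s v)⁻¹ ∈ X.C v) :
    X.Tree {t0, t1} {v} E := by
  classical
  have hvert : ∀ t ∈ ({t0, t1} : Set T), X.W t ≤ E := by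
    rintro t (rfl | rfl)
    · exact hv0
    · exact hv1
  have hedge : ∀ v' ∈ ({v} : Set V), X.s v' ∈ E := by
    rintro v' rfl
    exact hs
  refine Tree.of_side (amSide hκ) hvert hedge (fun _ => ()) (fun a ha b hb _ => by
      rw [Set.mem_singleton_iff.1 ha, Set.mem_singleton_iff.1 hb])
    (fun t => if h : t = t0 then
        ((MonoidHom.inl _ _).comp j0).comp (Subgroup.inclusion (by rw [h]))
      else if h : t = t1 then
        ((MonoidHom.inr _ _).comp j1).comp (Subgroup.inclusion (by rw [h])) else 1)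
    (fun t => if t = t0 then 1 else (amHom hκ (ρ ⟨X.s v, hs⟩))⁻¹ * (amSide hκ).s ())
    ((amHom hκ).comp ρ) ?_ ?_ ?_ ?_
  · rintro t (rfl | rfl) w
    · rw [if_pos rfl, dif_pos rfl, one_mul, inv_one, mul_one, MonoidHom.comp_apply, h0,
        amHom_false]
      rfl
    · rw [if_neg h01.symm, dif_neg h01.symm, dif_pos rfl]
      have h2 := congrArg (amHom hκ) (h1 w)
      rw [amHom_true, map_mul, map_mul, map_inv] at h2
      have h3 : (amHom hκ).comp ρ ⟨w, hvert _ (Or.inr rfl) w.2⟩ =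
          (amHom hκ (ρ ⟨X.s v, hs⟩))⁻¹ * (amHom hκ (ρ ⟨X.s v, hs⟩) *
            amHom hκ (ρ ⟨w, hv1 w.2⟩) * (amHom hκ (ρ ⟨X.s v, hs⟩))⁻¹) *
              amHom hκ (ρ ⟨X.s v, hs⟩) := by
        rw [MonoidHom.comp_apply]
        group
      rw [h3, h2]
      change _ = _ * (amSide hκ).inc (1, j1 w) * _
      group
  · rintro v' rfl t t' (rfl | rfl) (rfl | rfl) i i'
    · exact (n0 i').elim
    · rw [if_pos rfl, if_neg h01.symm, MonoidHom.comp_apply]
      group
    · exact (n0 i').elim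
    · exact (n1 i).elim
  · rintro v' rfl t (rfl | rfl) i w hw
    · rw [dif_pos rfl] at hw
      obtain ⟨c, hc⟩ := hw
      exact hC w ⟨c, congrArg Prod.fst hc⟩
    · exact (n1 i).elim
  · rintro v' rfl t (rfl | rfl) i w hw
    · exact (n0 i).elim
    · rw [dif_neg h01.symm, dif_pos rfl] at hw
      obtain ⟨c, hc⟩ := hw
      exact hD w ⟨c, congrArg Prod.snd hc⟩

end Am

end Net

end Pool.TPL
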