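import Pool.Agent.Lib.TPL.Eng

/-!
# T-junction plans: the triangle data
-/

namespace Pool.TPL

open Pool.GS Pool.GSE Word Function

namespace Plan

variable {A B T V H : Type} [Group A] [Group B] {P : Plan A B T V H}

theorem pw_coe {G : Type*} [Group G] {S : Subgroup G} {s : G} (hs : s ∈ S) (ε : Bool) :
    ((pw (⟨s, hs⟩ : S) ε : S) : G) = pw s ε := by
  cases ε <;> rfl

/-- corners at the vertical walls, in the wall group -/
theorem key1' {v : V} {ε : Bool} {h : H} {δ δ' : Bool} {t : T} (i : P.X.inc v ε t)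
    (j : P.Y.inc h δ t) (j' : P.Y.inc h δ' t) (k : P.st v ε h) {c c2 : P.X.C v} {b : P.D v}
    (hb : (b : B) ∈ P.Y.C h) {w : P.Y.W t} {hw : (w : B) ∈ P.D v}
    (hh : P.inV v (P.gl v ε (c2, b)) * P.inV v (P.gl v ε (1, pw ⟨P.Y.s h, sH_mem k⟩ δ)) *
      (P.inV v (P.gl v ε (c, ⟨w, hw⟩)))⁻¹ = P.inV v (P.gl v ε (1, pw ⟨P.Y.s h, sH_mem k⟩ δ'))) :
    c2 = c ∧ δ = δ' ∧ (w : B) = sd (P.Y.s h) δ (b : B) := by
  rw [← map_mul, ← map_mul, ← map_inv, ← map_inv, ← map_mul, ← map_mul] at hh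
  have h2 := (P.gl v ε).injective (P.inV_injective v hh)
  simp only [Prod.mk_mul_mk, Prod.inv_mk, mul_one, Prod.mk.injEq] at h2
  obtain ⟨h3, h4⟩ := h2
  have h5 := congrArg Subtype.val h4
  simp only [Subgroup.coe_mul, Subgroup.coe_inv, pw_coe] at h5
  have hw : (w : B) ∈ P.Y.W t := w.2
  have key : δ = δ' := by
    rcases δ with _ | _ <;> rcases δ' with _ | _
    · rfl
    · exfalso
      simp only [pw_false, pw_true, mul_one] at h5
      refine s_not_mem k i j j' ?_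
      rw [← h5]
      exact mul_mem (P.Y.mem j ⟨b, hb⟩) (inv_mem hw)
    · exfalso
      simp only [pw_false, pw_true] at h5
      have h6 : (b : B) ∈ P.Y.W t := P.Y.mem j' ⟨b, hb⟩
      refine s_not_mem k i j' j ?_
      have h7 : P.Y.s h = (b : B)⁻¹ * w := by
        have := mul_inv_eq_one.1 h5
        rw [← this]; group
      rw [h7]
      exact mul_mem (inv_mem h6) hw
    · rfl
  subst key
  refine ⟨mul_inv_eq_one.1 h3, rfl, ?_⟩
  rcases δ with _ | _
  · simp only [pw_false, mul_one] at h5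
    exact (mul_inv_eq_one.1 h5).symm
  · simp only [pw_true] at h5
    rw [sd_true]
    have := mul_inv_eq_iff_eq_mul.1 h5
    rw [mul_assoc, this]; group

/-- corners at the vertical walls, in the wall group -/
theorem key1 {κ κ' : P.Cor} (hp : κ.p = κ'.p) (hr : κ.r = κ'.r)
    (k : P.st κ.v κ.ε κ.h) {c c2 : P.X.C κ.v} {b : P.D κ.v} (hb : (b : B) ∈ P.Y.C κ.h)
    {w : P.Y.W κ.t}
    (h : P.inV κ.v (P.gl κ.v κ.ε (c2, b)) * eb κ * (homP κ.p (c, w)).2⁻¹ = eb κ') :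
    c2 = c ∧ κ = κ' ∧ (w : B) = sd (P.Y.s κ.h) κ.δ (b : B) := by
  have h1 : κ'.v = κ.v := (congrArg PI.v hp).symm
  have h2 : κ'.ε = κ.ε := (congrArg PI.ε hp).symm
  have h3 : κ'.t = κ.t := (congrArg PI.t hp).symm
  have k' : P.st κ'.v κ'.ε κ'.h := by
    by_contra hk
    rw [Cor.r_true k, Cor.r_false hk] at hr
    simp at hr
  have h4 : κ'.h = κ.h := by
    rw [Cor.r_true k, Cor.r_true k'] at hr
    simp only [Prod.mk.injEq] at hr
    exact hr.2.1.symm
  rw [eb_true k, eb_true k'] at h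
  obtain ⟨v', ε', h', δ', t', i', j'⟩ := κ'
  simp only at h1 h2 h3 h4
  subst h1 h2 h3 h4
  obtain ⟨g1, g2, g3⟩ := key1' κ.i κ.j j' k (c := c) (c2 := c2) (b := b) hb (w := w)
    (hw := (P.tree κ.v κ.ε).vert κ.t κ.i w.2) h
  exact ⟨g1, Cor.ext' rfl rfl rfl g2, g3⟩

/-- corners at the horizontal walls, in the wall group -/
theorem key2' {v : V} {ε ε' : Bool} {h : H} {δ : Bool} {t : T} (i : P.X.inc v ε t)
    (i' : P.X.inc v ε' t) (j : P.Y.inc h δ t) (k : P.st' h δ v) {b b2 : P.Y.C h} {a : P.E h}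
    (ha : (a : A) ∈ P.X.C v) {w : P.X.W t} {hw : (w : A) ∈ P.E h}
    (hh : P.inH h (P.gl' h δ (⟨w, hw⟩, b)) *
      (P.inH h (P.gl' h δ (pw ⟨P.X.s v, sV_mem k⟩ ε, 1)))⁻¹ * (P.inH h (P.gl' h δ (a, b2)))⁻¹ =
      (P.inH h (P.gl' h δ (pw ⟨P.X.s v, sV_mem k⟩ ε', 1)))⁻¹) :
    b2 = b ∧ ε = ε' ∧ (w : A) = sd (P.X.s v) ε (a : A) := by
  have h0 := congrArg (fun z => z⁻¹) hh
  simp only [mul_inv_rev, inv_inv] at h0
  rw [← map_inv, ← map_inv, ← map_mul, ← map_mul, ← map_mul, ← map_mul] at h0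
  have h2 := (P.gl' h δ).injective (P.inH_injective h h0)
  simp only [Prod.mk_mul_mk, Prod.inv_mk, one_mul, Prod.mk.injEq] at h2
  obtain ⟨h4, h3⟩ := h2
  have h5 := congrArg Subtype.val h4
  simp only [Subgroup.coe_mul, Subgroup.coe_inv, pw_coe] at h5
  rw [← mul_assoc] at h5
  have hw : (w : A) ∈ P.X.W t := w.2
  have key : ε = ε' := by
    rcases ε with _ | _ <;> rcases ε' with _ | _
    · rfl
    · exfalso
      simp only [pw_false, pw_true, mul_one] at h5
      refine s_not_mem' k j i i' ?_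
      rw [← h5]
      exact mul_mem (P.X.mem i ⟨a, ha⟩) (inv_mem hw)
    · exfalso
      simp only [pw_false, pw_true] at h5
      have h6 : (a : A) ∈ P.X.W t := P.X.mem i' ⟨a, ha⟩
      refine s_not_mem' k j i' i ?_
      have h7 : P.X.s v = (a : A)⁻¹ * w := by
        have := mul_inv_eq_one.1 h5
        rw [← this]; group
      rw [h7]
      exact mul_mem (inv_mem h6) hw
    · rfl
  subst key
  refine ⟨mul_inv_eq_one.1 h3, rfl, ?_⟩
  rcases ε with _ | _
  · simp only [pw_false, mul_one] at h5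
    exact (mul_inv_eq_one.1 h5).symm
  · simp only [pw_true] at h5
    rw [sd_true]
    have := mul_inv_eq_iff_eq_mul.1 h5
    rw [mul_assoc, this]; group

/-- corners at the horizontal walls, in the wall group -/
theorem key2 {κ κ' : P.Cor} (hq : κ.q = κ'.q) (hr : κ.r = κ'.r)
    (k : ¬ P.st κ.v κ.ε κ.h) {b b2 : P.Y.C κ.h} {a : P.E κ.h} (ha : (a : A) ∈ P.X.C κ.v)
    {w : P.X.W κ.t}
    (h : (homQ κ.q (w, b)).2 * ex κ * (P.inH κ.h (P.gl' κ.h κ.δ (a, b2)))⁻¹ = ex κ') :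
    b2 = b ∧ κ = κ' ∧ (w : A) = sd (P.X.s κ.v) κ.ε (a : A) := by
  have h1 : κ'.h = κ.h := (congrArg QI.h hq).symm
  have h2 : κ'.δ = κ.δ := (congrArg QI.δ hq).symm
  have h3 : κ'.t = κ.t := (congrArg QI.t hq).symm
  have k' : ¬ P.st κ'.v κ'.ε κ'.h := by
    intro hk
    rw [Cor.r_false k, Cor.r_true hk] at hr
    simp at hr
  have h4 : κ'.v = κ.v := by
    rw [Cor.r_false k, Cor.r_false k'] at hr
    simp only [Prod.mk.injEq] at hr
    exact hr.1.symm
  rw [ex_false k, ex_false k'] at h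
  obtain ⟨v', ε', h', δ', t', i', j'⟩ := κ'
  simp only at h1 h2 h3 h4
  subst h1 h2 h3 h4
  obtain ⟨g1, g2, g3⟩ := key2' κ.i i' κ.j (Cor.st' k) (b := b) (b2 := b2) (a := a) ha (w := w)
    (hw := (P.tree' κ.h κ.δ).vert κ.t κ.j w.2) h
  exact ⟨g1, Cor.ext' rfl g2 rfl rfl, g3⟩

theorem ext_p {κ κ' : P.Cor} (hp : κ.p = κ'.p) (hr : κ.r = κ'.r)
    (k : ¬ P.st κ.v κ.ε κ.h) : κ = κ' := by
  have k' : ¬ P.st κ'.v κ'.ε κ'.h := by
    intro hk
    rw [Cor.r_false k, Cor.r_true hk] at hr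
    simp at hr
  rw [Cor.r_false k, Cor.r_false k'] at hr
  simp only [Prod.mk.injEq] at hr
  exact Cor.ext' hr.1 (congrArg PI.ε hp) hr.2.1 hr.2.2.1

theorem ext_q {κ κ' : P.Cor} (hq : κ.q = κ'.q) (hr : κ.r = κ'.r)
    (k : P.st κ.v κ.ε κ.h) : κ = κ' := by
  have k' : P.st κ'.v κ'.ε κ'.h := by
    by_contra hk
    rw [Cor.r_true k, Cor.r_false hk] at hr
    simp at hr
  rw [Cor.r_true k, Cor.r_true k'] at hr
  simp only [Prod.mk.injEq] at hr
  exact Cor.ext' hr.1 hr.2.2.1 hr.2.1 (congrArg QI.δ hq)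

variable (P)

/-- the triangle data of a plan -/
noncomputable def tri : TriData P.Amb P.PI P.QI (V × H × Bool × Bool) P.Cor where
  LP p := (homP p).range
  LQ q := (homQ q).range
  LR := LR
  LP_left {p a} h := by
    obtain ⟨z, hz⟩ := h
    have h1 : P.inV p.v (P.toWall p.i z) = 1 := congrArg Prod.snd hz
    rw [map_eq_one_iff _ (P.inV_injective _), map_eq_one_iff _ (toWall_injective p)] at h1
    rw [h1, map_one] at hz
    exact (congrArg Prod.fst hz).symm
  LP_right {p a} h := by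
    obtain ⟨z, hz⟩ := h
    have h1 : P.inB p.t (P.toBrick p.i z) = 1 := congrArg Prod.fst hz
    rw [map_eq_one_iff _ (P.inB_injective _), map_eq_one_iff _ (toBrick_injective p)] at h1
    rw [h1, map_one] at hz
    exact (congrArg Prod.snd hz).symm
  LQ_left {q a} h := by
    obtain ⟨z, hz⟩ := h
    have h1 : P.inH q.h (P.toWall' q.j z) = 1 := congrArg Prod.snd hz
    rw [map_eq_one_iff _ (P.inH_injective _), map_eq_one_iff _ (toWall'_injective q)] at h1
    rw [h1, map_one] at hz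
    exact (congrArg Prod.fst hz).symm
  LQ_right {q a} h := by
    obtain ⟨z, hz⟩ := h
    have h1 : P.inB q.t (P.toBrick' q.j z) = 1 := congrArg Prod.fst hz
    rw [map_eq_one_iff _ (P.inB_injective _), map_eq_one_iff _ (toBrick'_injective q)] at h1
    rw [h1, map_one] at hz
    exact (congrArg Prod.snd hz).symm
  LR_left {r a} h := by
    obtain ⟨v, h', ε, k⟩ := r
    rcases k with _ | _
    · obtain ⟨a', c, -, h2⟩ := mem_LR_false.1 h
      rw [homR2_apply, Prod.mk.injEq] at h2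
      obtain ⟨h3, h4⟩ := h2
      have h5 : (a' : A) = 1 := congrArg (fun z : P.Amb => z.2.1) h4
      have h6 : sd (P.Y.s h') ε (c : B) = 1 := congrArg (fun z : P.Amb => z.2.2) h4
      have h7 : a' = 1 := Subtype.ext h5
      have h8 : c = 1 := Subtype.ext (sd_eq_one h6)
      rw [← h3, h7, h8]
      exact (congrArg (P.inH h') (map_one (P.gl' h' ε))).trans (map_one _)
    · obtain ⟨c, b, -, h2⟩ := mem_LR_true.1 h
      rw [homR1_apply, Prod.mk.injEq] at h2
      obtain ⟨h3, h4⟩ := h2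
      rw [map_eq_one_iff _ (P.inV_injective _), map_eq_one_iff _ (P.gl v ε).injective] at h4
      rw [Prod.mk_eq_one] at h4
      rw [← h3, h4.1, h4.2, Subgroup.coe_one, sd_one]
      rfl
  LR_right {r a} h := by
    obtain ⟨v, h', ε, k⟩ := r
    rcases k with _ | _
    · obtain ⟨a', c, -, h2⟩ := mem_LR_false.1 h
      rw [homR2_apply, Prod.mk.injEq] at h2
      obtain ⟨h3, h4⟩ := h2
      rw [map_eq_one_iff _ (P.inH_injective _), map_eq_one_iff _ (P.gl' h' ε).injective] at h3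
      rw [Prod.mk_eq_one] at h3
      rw [← h4, h3.1, h3.2, Subgroup.coe_one, Subgroup.coe_one, sd_one]
      rfl
    · obtain ⟨c, b, -, h2⟩ := mem_LR_true.1 h
      rw [homR1_apply, Prod.mk.injEq] at h2
      obtain ⟨h3, h4⟩ := h2
      have h5 : sd (P.X.s v) ε (c : A) = 1 := congrArg (fun z : P.Amb => z.2.1) h3
      have h6 : (b : B) = 1 := congrArg (fun z : P.Amb => z.2.2) h3
      have h7 : b = 1 := Subtype.ext h6
      have h8 : c = 1 := Subtype.ext (sd_eq_one h5)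
      rw [← h4, h7, h8]
      exact (congrArg (P.inV v) (map_one (P.gl v ε))).trans (map_one _)
  p := Cor.p
  q := Cor.q
  r := Cor.r
  a _ := 1
  x := ex
  b := eb
  kind r := r.2.2.2
  c0 {κ κ' l l' m m'} h1 h2 h3 h4 h5 := by
    have hκ : κ = κ' := by
      obtain ⟨v, ε, h1, δ, t, i, j⟩ := κ
      obtain ⟨v', ε', h1', δ', t', i', j'⟩ := κ'
      simp only [Cor.p, Cor.q, PI.mk.injEq, QI.mk.injEq] at h1 h2
      obtain ⟨rfl, rfl, rfl⟩ := h1
      obtain ⟨rfl, rfl, -⟩ := h2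
      rfl
    subst hκ
    obtain ⟨⟨c, w⟩, hz⟩ := h3
    obtain ⟨⟨a, b⟩, hy⟩ := h4
    simp only [mul_one] at h5
    have h6 : l = m := mul_inv_eq_one.1 h5
    have h7 : homP κ.p (c, w) = (l, l') := hz
    have h8 : homQ κ.q (a, b) = (m, m') := hy
    obtain ⟨rfl, rfl⟩ := brick_key (κ := κ) (c := c) (w := w) (a := a) (b := b)
      (by rw [h7, h8, h6])
    refine ⟨rfl, _, _, rr_mem κ c b, ?_, ?_⟩
    · have := F1 κ c b
      rw [h8] at this
      exact mul_inv_eq_iff_eq_mul.2 this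
    · have := F2 κ c b
      rw [h7] at this
      exact mul_inv_eq_iff_eq_mul.2 this
  c1 {κ κ' l l' n n'} h1 h2 h3 h4 h5 := by
    obtain ⟨⟨c, w⟩, hz⟩ := h3
    have h7 : homP κ.p (c, w) = (l, l') := hz
    obtain ⟨c2, b, hy⟩ := exists_rr h4
    have key : c2 = c ∧ κ = κ' ∧ w = P.Y.side κ.j b := by
      by_cases k : P.st κ.v κ.ε κ.h
      · rw [rr_true k, homR1_apply, Prod.mk.injEq] at hy
        have := key1 (κ := κ) (κ' := κ') h1 h2 k (c := c) (w := w) (c2 := c2)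
          (b := ⟨b, Cor.C_mem k b⟩) b.2 (by rw [hy.2, h7]; exact h5)
        exact ⟨this.1, this.2.1, Subtype.ext this.2.2⟩
      · have k2 := Cor.st' k
        have hκ : κ = κ' := ext_p h1 h2 k
        subst hκ
        rw [eb_false k, mul_one, mul_inv_eq_one] at h5
        rw [rr_false k, homR2_apply, Prod.mk.injEq] at hy
        have h8 : l' = P.inV κ.v (P.gl κ.v κ.ε
            (c, ⟨w, (P.tree κ.v κ.ε).vert κ.t κ.i w.2⟩)) := (congrArg Prod.snd h7).symm
        have h9 : sd (P.Y.s κ.h) κ.δ (b : B) ∈ P.D κ.v :=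
          (P.tree κ.v κ.ε).vert κ.t κ.i (P.Y.mem κ.j b)
        have h10 : n' = P.inV κ.v (P.gl κ.v κ.ε (c2, ⟨sd (P.Y.s κ.h) κ.δ (b : B), h9⟩)) := by
          rw [gl_fix k2 κ.ε c2 b h9, ← hy.2]
          rfl
        rw [h8, h10] at h5
        have h11 := (P.gl κ.v κ.ε).injective (P.inV_injective κ.v h5)
        rw [Prod.mk.injEq] at h11
        exact ⟨h11.1, rfl, Subtype.ext (congrArg (fun z : P.D κ.v => (z : B)) h11.2).symm⟩
    obtain ⟨rfl, rfl, rfl⟩ := key
    refine ⟨rfl, _, _, ⟨(P.X.side κ.i c2, b), rfl⟩, ?_, ?_⟩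
    · simp only [mul_one]
      rw [mul_inv_eq_one]
      have h8 := F0 κ c2 b
      rw [h7] at h8
      exact h8
    · have := F1 κ c2 b
      rw [hy] at this
      exact mul_inv_eq_iff_eq_mul.2 this
  c2 {κ κ' m m' n n'} h1 h2 h3 h4 h5 := by
    obtain ⟨⟨a, b⟩, hz⟩ := h3
    have h7 : homQ κ.q (a, b) = (m, m') := hz
    obtain ⟨c, b2, hy⟩ := exists_rr h4
    have key : b2 = b ∧ κ = κ' ∧ a = P.X.side κ.i c := by
      by_cases k : P.st κ.v κ.ε κ.h
      · have hκ : κ = κ' := ext_q h1 h2 k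
        subst hκ
        rw [ex_true k, mul_one, mul_inv_eq_one] at h5
        rw [rr_true k, homR1_apply, Prod.mk.injEq] at hy
        have h8 : m' = P.inH κ.h (P.gl' κ.h κ.δ
            (⟨a, (P.tree' κ.h κ.δ).vert κ.t κ.j a.2⟩, b)) := (congrArg Prod.snd h7).symm
        have h9 : sd (P.X.s κ.v) κ.ε (c : A) ∈ P.E κ.h :=
          (P.tree' κ.h κ.δ).vert κ.t κ.j (P.X.mem κ.i c)
        have h10 : n = P.inH κ.h (P.gl' κ.h κ.δ (⟨sd (P.X.s κ.v) κ.ε (c : A), h9⟩, b2)) := by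
          rw [gl'_fix k κ.δ c b2 h9, ← hy.1]
          rfl
        rw [h8, h10] at h5
        have h11 := (P.gl' κ.h κ.δ).injective (P.inH_injective κ.h h5)
        rw [Prod.mk.injEq] at h11
        exact ⟨h11.2.symm, rfl, Subtype.ext (congrArg (fun z : P.E κ.h => (z : A)) h11.1)⟩
      · rw [rr_false k, homR2_apply, Prod.mk.injEq] at hy
        have := key2 (κ := κ) (κ' := κ') h1 h2 k (b := b) (w := a) (b2 := b2)
          (a := ⟨c, Cor.C_mem' k c⟩) c.2 (by rw [hy.1, h7]; exact h5)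
        exact ⟨this.1, this.2.1, Subtype.ext this.2.2⟩
    obtain ⟨rfl, rfl, rfl⟩ := key
    refine ⟨rfl, _, _, ⟨(c, P.Y.side κ.j b2), rfl⟩, ?_, ?_⟩
    · simp only [mul_one]
      rw [mul_inv_eq_one]
      have h8 := F0 κ c b2
      rw [h7] at h8
      exact h8
    · have := F2 κ c b2
      rw [hy] at this
      exact mul_inv_eq_iff_eq_mul.2 this

end Plan

end Pool.TPL
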